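import Pool.Agent.Lib.MP_8c4e2c_gt.EN.Ent

/-!
# An entangled set of reals when the continuum has cofinality `ℵ₁`
-/

set_option autoImplicit false

namespace Pool.Agent.Lib.MP_8c4e2c_gt.EN

open Set Filter Topology Cardinal
open Pool.Agent.Lib.MP_8c4e2c_gt.BN

section Closed

lemma mk_isClosed_le (X : Type) [TopologicalSpace X] [SecondCountableTopology X] :
    #{F : Set X // IsClosed F} ≤ Cardinal.continuum := by
  have hbB := TopologicalSpace.isBasis_countableBasis X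
  have hbc := TopologicalSpace.countable_countableBasis X
  have : Countable (TopologicalSpace.countableBasis X) := hbc.to_subtype
  have h1 : Function.Injective fun F : {F : Set X // IsClosed F} =>
      {V : TopologicalSpace.countableBasis X | V.1 ∩ F.1 = ∅} := by
    intro F G h
    have key : ∀ F G : {F : Set X // IsClosed F}, {V : TopologicalSpace.countableBasis X | V.1 ∩ F.1 = ∅} =
        {V : TopologicalSpace.countableBasis X | V.1 ∩ G.1 = ∅} → F.1 ⊆ G.1 := by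
      intro F G h x hx
      by_contra hxG
      obtain ⟨V, hV, hxV, hVG⟩ := hbB.exists_subset_of_mem_open hxG G.2.isOpen_compl
      have h2 : (⟨V, hV⟩ : TopologicalSpace.countableBasis X) ∈
          {V : TopologicalSpace.countableBasis X | V.1 ∩ G.1 = ∅} := by
        show V ∩ G.1 = ∅
        ext y
        simp only [mem_inter_iff, mem_empty_iff_false, iff_false, not_and]
        exact fun hy => hVG hy
      rw [← h] at h2
      have h3 : V ∩ F.1 = ∅ := h2
      have h4 : x ∈ V ∩ F.1 := ⟨hxV, hx⟩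
      rw [h3] at h4
      exact h4
    exact Subtype.ext (Subset.antisymm (key F G h) (key G F h.symm))
  refine (Cardinal.mk_le_of_injective h1).trans ?_
  rw [Cardinal.mk_set, ← Cardinal.two_power_aleph0]
  exact Cardinal.power_le_power_left two_ne_zero (Cardinal.mk_le_aleph0)

/-- closed sets of tuples -/
abbrev Cl : Type := Σ n : ℕ, {F : Set (Fin n → ℝ) // IsClosed F}

lemma mk_Cl_le : #Cl ≤ Cardinal.continuum := by
  rw [Cardinal.mk_sigma]
  refine (Cardinal.sum_le_sum _ (fun _ => Cardinal.continuum) fun n => mk_isClosed_le _).trans ?_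
  rw [Cardinal.sum_const]
  simp

end Closed

variable {ι : Type} [LinearOrder ι]

lemma exists_rank_aux {W : Type} [LinearOrder W] [WellFoundedLT ι] (hmk : #ι = Cardinal.aleph 1)
    (hι : ∀ i : ι, (Iic i).Countable) (hmkW : #W = Cardinal.continuum)
    (hcofW : Order.cof W = Cardinal.aleph 1) (hW : ∀ x : W, #(Iio x) < Cardinal.continuum) :
    ∃ ρ : Cl → ι, ∀ α, #{C : Cl // ρ C ≤ α} < Cardinal.continuum := by
  obtain ⟨s, hs, hs'⟩ := Order.exists_cof_eq (α := W)
  have hsι : #s = #ι := by rw [hs', hcofW, hmk]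
  obtain ⟨f⟩ := Cardinal.eq.1 hsι
  have hne : ∀ w : W, ∃ i : ι, w ≤ (f.symm i).1 := by
    intro w
    obtain ⟨y, hy, hwy⟩ := hs w
    exact ⟨f ⟨y, hy⟩, by simpa using hwy⟩
  set ρ : W → ι := fun w => (wellFounded_lt (α := ι)).min {i | w ≤ (f.symm i).1} (hne w) with hρ
  have hρ1 : ∀ w, w ≤ (f.symm (ρ w)).1 := fun w =>
    (wellFounded_lt (α := ι)).min_mem {i | w ≤ (f.symm i).1} (hne w)
  obtain ⟨φ⟩ := (Cardinal.le_def Cl W).1 (by rw [hmkW]; exact mk_Cl_le)
  refine ⟨fun C => ρ (φ C), fun α => ?_⟩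
  have h1 : ¬ IsCofinal ((fun i => (f.symm i).1) '' Iic α) := by
    intro h
    have h2 := Order.cof_le h
    rw [hcofW] at h2
    have h3 : #((fun i => (f.symm i).1) '' Iic α) ≤ Cardinal.aleph0 :=
      Cardinal.le_aleph0_iff_set_countable.2 ((hι α).image _)
    exact absurd (h2.trans h3) (not_le.2 Cardinal.aleph0_lt_aleph_one)
  rw [not_isCofinal_iff] at h1
  obtain ⟨x, hx⟩ := h1
  have h2 : ∀ w, ρ w ≤ α → w < x := fun w hw =>
    (hρ1 w).trans_lt (hx _ ⟨ρ w, hw, rfl⟩)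
  refine lt_of_le_of_lt ?_ (hW x)
  refine Cardinal.mk_le_of_injective (f := fun C : {C : Cl // ρ (φ C) ≤ α} =>
    (⟨φ C.1, h2 _ C.2⟩ : Iio x)) ?_
  intro C C' h
  exact Subtype.ext (φ.injective (congrArg Subtype.val h))

/-- a rank function on the closed sets -/
lemma exists_rank [WellFoundedLT ι] (hmk : #ι = Cardinal.aleph 1) (hι : ∀ i : ι, (Iic i).Countable)
    (hcof : (Cardinal.continuum.{0}).ord.cof = Cardinal.aleph 1) :
    ∃ ρ : Cl → ι, ∀ α, #{C : Cl // ρ C ≤ α} < Cardinal.continuum := by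
  refine exists_rank_aux (W := (Cardinal.continuum.{0}).ord.ToType) hmk hι
    (Cardinal.mk_ord_toType _) ?_ ?_
  · rw [Ordinal.cof_toType]
    exact hcof
  · intro x
    have := Cardinal.mk_Iio_lt x (by simp)
    simpa using this

/-- sets of tuples -/
abbrev Sg : Type := Σ m : ℕ, Set (Fin m → ℝ)

/-- one derivation step -/
def step : Sg → ℚ × ℚ → Sg
  | ⟨0, F⟩, _ => ⟨0, F⟩
  | ⟨m + 1, F⟩, q => ⟨m, {y | (∃ x : ℝ, x ≤ (q.1 : ℝ) ∧ Fin.snoc (α := fun _ => ℝ) y x ∈ F) ∧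
      ∃ x : ℝ, (q.2 : ℝ) ≤ x ∧ Fin.snoc (α := fun _ => ℝ) y x ∈ F}⟩

/-- the fibres of a set of tuples -/
def fib (S : Sg) (m : ℕ) (y : Fin m → ℝ) : Set ℝ :=
  {x | ∃ F : Set (Fin (m + 1) → ℝ), S = ⟨m + 1, F⟩ ∧ Fin.snoc (α := fun _ => ℝ) y x ∈ F}

lemma fib_mk (m : ℕ) (F : Set (Fin (m + 1) → ℝ)) (y : Fin m → ℝ) :
    fib ⟨m + 1, F⟩ m y = {x | Fin.snoc (α := fun _ => ℝ) y x ∈ F} := by
  ext x
  constructor
  · rintro ⟨F', h, hx⟩
    have h2 : F = F' := by simpa using h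
    rw [h2]
    exact hx
  · intro hx
    exact ⟨F, rfl, hx⟩

lemma exists_point [WellFoundedLT ι] (hι : ∀ i : ι, (Iic i).Countable) (ρ : Cl → ι)
    (hρ : ∀ α, #{C : Cl // ρ C ≤ α} < Cardinal.continuum) (α : ι) (g : ∀ β, β < α → ℝ) :
    ∃ x : ℝ, (∀ β hβ, x ≠ g β hβ) ∧ ∀ C : Cl, ρ C ≤ α → ∀ l : List (ℚ × ℚ), ∀ m : ℕ,
      ∀ y : Fin m → Iio α,
        (fib (l.foldl step ⟨C.1, C.2.1⟩) m (fun i => g (y i).1 (y i).2)).Countable →
          x ∉ fib (l.foldl step ⟨C.1, C.2.1⟩) m (fun i => g (y i).1 (y i).2) := by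
  classical
  have hcα : Countable (Iio α) := ((hι α).mono Iio_subset_Iic_self).to_subtype
  set I : Type := {C : Cl // ρ C ≤ α} × List (ℚ × ℚ) × (Σ m : ℕ, (Fin m → Iio α)) with hI
  set B : I → Set ℝ := fun i =>
    if (fib (i.2.1.foldl step ⟨i.1.1.1, i.1.1.2.1⟩) i.2.2.1
      (fun s => g (i.2.2.2 s).1 (i.2.2.2 s).2)).Countable then
      fib (i.2.1.foldl step ⟨i.1.1.1, i.1.1.2.1⟩) i.2.2.1 (fun s => g (i.2.2.2 s).1 (i.2.2.2 s).2)
    else ∅ with hB
  have hBc : ∀ i, #(B i) ≤ Cardinal.aleph0 := by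
    intro i
    rw [Cardinal.le_aleph0_iff_set_countable]
    simp only [hB]
    split_ifs with h
    · exact h
    · exact countable_empty
  have hc0 : Cardinal.aleph0.{0} < Cardinal.continuum := Cardinal.aleph0_lt_continuum
  have hIc : #I < Cardinal.continuum := by
    rw [hI, Cardinal.mk_prod, Cardinal.mk_prod]
    simp only [Cardinal.lift_id]
    refine Cardinal.mul_lt_of_lt hc0.le (hρ α) (Cardinal.mul_lt_of_lt hc0.le ?_ ?_)
    · exact lt_of_le_of_lt Cardinal.mk_le_aleph0 hc0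
    · exact lt_of_le_of_lt Cardinal.mk_le_aleph0 hc0
  have h1 : #(⋃ i, B i) < Cardinal.continuum := by
    refine lt_of_le_of_lt (Cardinal.mk_iUnion_le_sum_mk) ?_
    refine lt_of_le_of_lt (Cardinal.sum_le_sum _ (fun _ => Cardinal.aleph0) hBc) ?_
    rw [Cardinal.sum_const]
    simp only [Cardinal.lift_id]
    exact Cardinal.mul_lt_of_lt hc0.le hIc hc0
  have h2 : #(range fun β : Iio α => g β.1 β.2) < Cardinal.continuum :=
    lt_of_le_of_lt (Cardinal.le_aleph0_iff_set_countable.2 (countable_range _)) hc0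
  have h3 : #((range fun β : Iio α => g β.1 β.2) ∪ ⋃ i, B i : Set ℝ) < Cardinal.continuum :=
    lt_of_le_of_lt (Cardinal.mk_union_le _ _) (Cardinal.add_lt_of_lt hc0.le h2 h1)
  obtain ⟨x, hx⟩ : ∃ x, x ∉ ((range fun β : Iio α => g β.1 β.2) ∪ ⋃ i, B i : Set ℝ) := by
    by_contra hcon
    push Not at hcon
    rw [eq_univ_of_forall hcon, Cardinal.mk_univ, Cardinal.mk_real] at h3
    exact lt_irrefl _ h3
  rw [mem_union, not_or] at hx
  refine ⟨x, fun β hβ h => hx.1 ⟨⟨β, hβ⟩, h.symm⟩, fun C hC l m y hcount hmem => hx.2 ?_⟩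
  refine mem_iUnion.2 ⟨(⟨C, hC⟩, l, ⟨m, y⟩), ?_⟩
  simp only [hB]
  rw [if_pos hcount]
  exact hmem

lemma tree {r : ι → ℝ} (ρ : Cl → ι) (hr : ∀ α, ∀ C : Cl, ρ C ≤ α → ∀ l : List (ℚ × ℚ), ∀ m : ℕ,
      ∀ y : Fin m → Iio α, (fib (l.foldl step ⟨C.1, C.2.1⟩) m (fun i => r (y i).1)).Countable →
          r α ∉ fib (l.foldl step ⟨C.1, C.2.1⟩) m (fun i => r (y i).1)) (C : Cl) :
    ∀ (m : ℕ) (F : Set (Fin m → ℝ)) (l : List (ℚ × ℚ)), l.foldl step ⟨C.1, C.2.1⟩ = ⟨m, F⟩ →
      ∀ y : Fin m → ι, StrictMono y → (∀ i, ρ C ≤ y i) → (fun i => r (y i)) ∈ F →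
        ∃ q q' : Fin m → ℝ, (∀ i, q i < q' i) ∧ ∀ ε : Fin m → Bool, ∃ x ∈ F, ∀ i,
          if ε i = true then q' i ≤ x i else x i ≤ q i := by
  intro m
  induction m with
  | zero =>
    intro F l hl y hy hρ hF
    exact ⟨fun i => i.elim0, fun i => i.elim0, fun i => i.elim0, fun ε => ⟨_, hF, fun i => i.elim0⟩⟩
  | succ m ih =>
    intro F l hl y hy hρ hF
    set α : ι := y (Fin.last m) with hα
    set y' : Fin m → ι := fun i => y i.castSucc with hy'
    have hlt : ∀ i, y' i < α := fun i => hy (Fin.castSucc_lt_last i)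
    have hsn : (Fin.snoc (α := fun _ => ℝ) (fun i => r (y' i)) (r α)) = fun i => r (y i) := by
      funext i
      refine Fin.lastCases ?_ (fun j => ?_) i
      · rw [Fin.snoc_last]
      · rw [Fin.snoc_castSucc]
    have hmem : r α ∈ fib (l.foldl step ⟨C.1, C.2.1⟩) m (fun i => r (y' i)) := by
      rw [hl, fib_mk]
      show Fin.snoc (α := fun _ => ℝ) (fun i => r (y' i)) (r α) ∈ F
      rw [hsn]
      exact hF
    have hunc : ¬ (fib (l.foldl step ⟨C.1, C.2.1⟩) m (fun i => r (y' i))).Countable := fun h =>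
      hr α C (hρ _) l m (fun i => ⟨y' i, hlt i⟩) h hmem
    rw [hl, fib_mk] at hunc
    have hinf : ({x | Fin.snoc (α := fun _ => ℝ) (fun i => r (y' i)) x ∈ F} : Set ℝ).Infinite :=
      fun h => hunc h.countable
    obtain ⟨x1, hx1, x2, hx2, hne⟩ := hinf.nontrivial
    obtain ⟨x1, hx1, x2, hx2, hne⟩ : ∃ x1, Fin.snoc (α := fun _ => ℝ) (fun i => r (y' i)) x1 ∈ F ∧
        ∃ x2, Fin.snoc (α := fun _ => ℝ) (fun i => r (y' i)) x2 ∈ F ∧ x1 < x2 := by
      rcases lt_or_gt_of_ne hne with h | h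
      · exact ⟨x1, hx1, x2, hx2, h⟩
      · exact ⟨x2, hx2, x1, hx1, h⟩
    obtain ⟨q, hq1, hq2⟩ := exists_rat_btwn hne
    obtain ⟨q', hq1', hq2'⟩ := exists_rat_btwn hq2
    set F' : Set (Fin m → ℝ) := {y | (∃ x : ℝ, x ≤ ((q, q').1 : ℝ) ∧
      Fin.snoc (α := fun _ => ℝ) y x ∈ F) ∧
      ∃ x : ℝ, ((q, q').2 : ℝ) ≤ x ∧ Fin.snoc (α := fun _ => ℝ) y x ∈ F} with hF'
    have hl' : (l ++ [(q, q')]).foldl step ⟨C.1, C.2.1⟩ = ⟨m, F'⟩ := by
      rw [List.foldl_append, hl]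
      rfl
    obtain ⟨p, p', hpp, hp⟩ := ih F' _ hl' y' (fun i j hij => hy (by simpa using hij))
      (fun i => hρ _) ⟨⟨x1, hq1.le, hx1⟩, ⟨x2, hq2'.le, hx2⟩⟩
    refine ⟨Fin.snoc (α := fun _ => ℝ) p q, Fin.snoc (α := fun _ => ℝ) p' q', ?_, ?_⟩
    · intro i
      refine Fin.lastCases ?_ (fun j => ?_) i
      · rw [Fin.snoc_last, Fin.snoc_last]
        exact hq1'
      · rw [Fin.snoc_castSucc, Fin.snoc_castSucc]
        exact hpp j
    · intro ε
      obtain ⟨x, ⟨⟨z1, hz1, hz1'⟩, ⟨z2, hz2, hz2'⟩⟩, hx⟩ := hp fun i => ε i.castSucc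
      by_cases hε : ε (Fin.last m) = true
      · refine ⟨Fin.snoc (α := fun _ => ℝ) x z2, hz2', fun i => ?_⟩
        refine Fin.lastCases ?_ (fun j => ?_) i
        · rw [if_pos hε, Fin.snoc_last, Fin.snoc_last]
          exact hz2
        · simp only [Fin.snoc_castSucc]
          exact hx j
      · refine ⟨Fin.snoc (α := fun _ => ℝ) x z1, hz1', fun i => ?_⟩
        refine Fin.lastCases ?_ (fun j => ?_) i
        · rw [if_neg hε, Fin.snoc_last, Fin.snoc_last]
          exact hz1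
        · simp only [Fin.snoc_castSucc]
          exact hx j

theorem exists_entangled [WellFoundedLT ι] (hmk : #ι = Cardinal.aleph 1)
    (hι : ∀ i : ι, (Iic i).Countable)
    (hcof : (Cardinal.continuum.{0}).ord.cof = Cardinal.aleph 1) :
    ∃ E : Set ℝ, ¬ E.Countable ∧ IsEntangled E := by
  classical
  obtain ⟨ρ, hρ⟩ := exists_rank hmk hι hcof
  have hstep := exists_point hι ρ hρ
  choose G hG1 hG2 using hstep
  set r : ι → ℝ := (wellFounded_lt (α := ι)).fix G with hr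
  have hfix : ∀ i, r i = G i fun j _ => r j := fun i => (wellFounded_lt (α := ι)).fix_eq G i
  have hr1 : ∀ β α, β < α → r α ≠ r β := by
    intro β α h
    rw [hfix α]
    exact hG1 α (fun j _ => r j) β h
  have hr2 : ∀ α, ∀ C : Cl, ρ C ≤ α → ∀ l : List (ℚ × ℚ), ∀ m : ℕ,
      ∀ y : Fin m → Iio α, (fib (l.foldl step ⟨C.1, C.2.1⟩) m (fun i => r (y i).1)).Countable →
          r α ∉ fib (l.foldl step ⟨C.1, C.2.1⟩) m (fun i => r (y i).1) := by
    intro α
    rw [hfix α]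
    exact hG2 α (fun j _ => r j)
  have hrinj : Function.Injective r := by
    intro α β h
    by_contra hne
    rcases lt_or_gt_of_ne hne with h1 | h1
    · exact hr1 _ _ h1 h.symm
    · exact hr1 _ _ h1 h
  have hunc : Uncountable ι := by
    rw [← Cardinal.aleph0_lt_mk_iff, hmk]
    exact Cardinal.aleph0_lt_aleph_one
  refine ⟨range r, fun h => not_countable (α := ι) ?_, ?_⟩
  · rw [← image_univ] at h
    exact countable_univ_iff.1 (countable_of_injective_of_countable_image hrinj.injOn h)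
  intro n 𝒜 h𝒜 hmem hdis t
  have hidx : ∀ a : Fin n → ℝ, ∃ y : Fin n → ι, a ∈ 𝒜 → (∀ p, r (y p) = a p) := by
    intro a
    by_cases ha : a ∈ 𝒜
    · choose y hy using (hmem a ha).2
      exact ⟨y, fun _ => hy⟩
    · obtain ⟨i⟩ : Nonempty ι := inferInstance
      exact ⟨fun _ => i, fun h => absurd h ha⟩
  choose y hy using hidx
  obtain ⟨σ, hσ⟩ := pigeon h𝒜 fun a => Tuple.sort (y a)
  set 𝒜' : Set (Fin n → ℝ) := {a | a ∈ 𝒜 ∧ Tuple.sort (y a) = σ} with h𝒜'
  set A : Set (Fin n → ℝ) := (fun a => a ∘ σ) '' 𝒜' with hA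
  set C : Cl := ⟨n, closure A, isClosed_closure⟩ with hC
  have hbad : {a | a ∈ 𝒜' ∧ ∃ p, y a p < ρ C}.Countable := by
    have h1 : {a | a ∈ 𝒜' ∧ ∃ p, y a p < ρ C} ⊆
        ⋃ β ∈ Iic (ρ C), {a | a ∈ 𝒜' ∧ ∃ p, y a p = β} := by
      rintro a ⟨ha, p, hp⟩
      exact mem_biUnion (show y a p ∈ Iic (ρ C) from hp.le) (And.intro ha ⟨p, rfl⟩)
    refine ((hι _).biUnion fun β _ => ?_).mono h1
    refine Set.Subsingleton.countable ?_
    rintro a ⟨ha, p, hp⟩ b ⟨hb, q, hq⟩
    by_contra hne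
    refine hdis a ha.1 b hb.1 hne p q ?_
    rw [← hy a ha.1 p, ← hy b hb.1 q, hp, hq]
  obtain ⟨a, ha, ha'⟩ : ∃ a ∈ 𝒜', ∀ p, ρ C ≤ y a p := by
    by_contra hcon
    push Not at hcon
    exact hσ (hbad.mono fun a ha => And.intro ha (hcon a ha))
  have hyinj : Function.Injective (y a) := by
    intro p q hpq
    apply (hmem a ha.1).1
    rw [← hy a ha.1 p, ← hy a ha.1 q, hpq]
  have hmono : StrictMono (y a ∘ σ) := by
    have h1 := Tuple.monotone_sort (y a)
    rw [ha.2] at h1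
    exact h1.strictMono_of_injective (hyinj.comp σ.injective)
  obtain ⟨q, q', hqq, htree⟩ := tree ρ hr2 C n (closure A) [] rfl (y a ∘ σ) hmono (fun i => ha' _) (by
    have h1 : (fun i => r ((y a ∘ σ) i)) = a ∘ σ := by
      funext i
      exact hy a ha.1 (σ i)
    rw [h1]
    exact subset_closure ⟨a, ha, rfl⟩)
  have hget : ∀ ε : Fin n → Bool, ∃ b ∈ 𝒜, ∀ i, if ε i = true then (q i + q' i) / 2 < b (σ i)
      else b (σ i) < (q i + q' i) / 2 := by
    intro ε
    obtain ⟨x, hx, hx'⟩ := htree ε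
    set O : Set (Fin n → ℝ) := {x | ∀ i, if ε i = true then (q i + q' i) / 2 < x i
      else x i < (q i + q' i) / 2} with hO
    have hOo : IsOpen O := by
      have e : O = ⋂ i, {x : Fin n → ℝ | if ε i = true then (q i + q' i) / 2 < x i
          else x i < (q i + q' i) / 2} := by
        ext x
        simp [hO]
      rw [e]
      refine isOpen_iInter_of_finite fun i => ?_
      by_cases h : ε i = true
      · simp only [h, if_true]
        exact isOpen_lt continuous_const (continuous_apply i)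
      · simp only [h]
        exact isOpen_lt (continuous_apply i) continuous_const
    have hxO : x ∈ O := by
      intro i
      have h1 := hx' i
      have h2 := hqq i
      by_cases h : ε i = true
      · rw [if_pos h] at h1 ⊢
        linarith
      · rw [if_neg h] at h1 ⊢
        linarith
    obtain ⟨_, hbO, ⟨b, hb, rfl⟩⟩ := mem_closure_iff.1 hx O hOo hxO
    exact ⟨b, hb.1, hbO⟩
  obtain ⟨b1, hb1, hb1'⟩ := hget fun i => !(t (σ i))
  obtain ⟨b2, hb2, hb2'⟩ := hget fun i => t (σ i)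
  refine ⟨b1, hb1, b2, hb2, fun p => ?_⟩
  have h1 := hb1' (σ.symm p)
  have h2 := hb2' (σ.symm p)
  simp only [Equiv.apply_symm_apply] at h1 h2
  by_cases h : t p = true
  · simp only [h, Bool.not_true, Bool.false_eq_true, if_false, if_true] at h1 h2 ⊢
    exact h1.trans h2
  · have h' : t p = false := by simpa using h
    simp only [h', Bool.not_false, if_true, Bool.false_eq_true, if_false] at h1 h2 ⊢
    exact h2.trans h1

end Pool.Agent.Lib.MP_8c4e2c_gt.EN
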