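import Pool.Agent.Lib.MP_8c4e2c_gt.EN.Pat

/-!
# Entangled sets of reals give pattern colorings
-/

set_option autoImplicit false

namespace Pool.Agent.Lib.MP_8c4e2c_gt.EN

open Set Filter Topology
open Pool.Agent.Lib.MP_8c4e2c_gt.BN

/-- `E` is entangled: for every uncountable family of injective `n`-tuples of elements of `E` with
pairwise disjoint ranges and every type `t` there are two tuples of the family realizing `t`. -/
def IsEntangled (E : Set ℝ) : Prop :=
  ∀ (n : ℕ) (𝒜 : Set (Fin n → ℝ)), ¬ 𝒜.Countable →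
    (∀ a ∈ 𝒜, Function.Injective a ∧ ∀ p, a p ∈ E) →
    (∀ a ∈ 𝒜, ∀ b ∈ 𝒜, a ≠ b → ∀ p q, a p ≠ b q) → ∀ t : Fin n → Bool,
      ∃ a ∈ 𝒜, ∃ b ∈ 𝒜, ∀ p, if t p = true then a p < b p else b p < a p

variable {ι : Type} [LinearOrder ι]

/-- two members in the right order -/
lemma exists_pair {J : Set ι} (hJ : ¬ J.Countable) : ∃ d ∈ J, ∃ j ∈ J, d < j := by
  have h1 : J.Infinite := fun h => hJ h.countable
  obtain ⟨x, hx, y, hy, hxy⟩ := h1.nontrivial
  rcases lt_or_gt_of_ne hxy with h | h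
  · exact ⟨x, hx, y, hy, h⟩
  · exact ⟨y, hy, x, hx, h⟩

/-- the condensation points of an indexed family -/
lemma exists_condensed {X : Type} [TopologicalSpace X] [SecondCountableTopology X] (a : ι → X)
    {J : Set ι} (hJ : ¬ J.Countable) : ∃ J' ⊆ J, ¬ J'.Countable ∧ ∀ i ∈ J', ∀ U : Set X, IsOpen U →
      a i ∈ U → ¬ {j | j ∈ J ∧ a j ∈ U}.Countable := by
  set b := TopologicalSpace.countableBasis X with hb
  have hbB := TopologicalSpace.isBasis_countableBasis X
  have hbc := TopologicalSpace.countable_countableBasis X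
  set bad : Set ι := ⋃ V ∈ b, {i | (i ∈ J ∧ a i ∈ V) ∧ {j | j ∈ J ∧ a j ∈ V}.Countable} with hbad
  have hbadc : bad.Countable := by
    refine hbc.biUnion fun V _ => ?_
    by_cases h : {j | j ∈ J ∧ a j ∈ V}.Countable
    · exact h.mono fun i hi => hi.1
    · convert countable_empty
      ext i
      simp [h]
  refine ⟨J \ bad, fun _ hi => hi.1, fun h => hJ ?_, fun i hi U hU hiU hc => hi.2 ?_⟩
  · refine (h.union hbadc).mono fun i hi => ?_
    by_cases h2 : i ∈ bad
    · exact Or.inr h2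
    · exact Or.inl ⟨hi, h2⟩
  · obtain ⟨V, hV, hiV, hVU⟩ := hbB.exists_subset_of_mem_open hiU hU
    have h3 : {j | j ∈ J ∧ a j ∈ V}.Countable := hc.mono fun j hj => And.intro hj.1 (hVU hj.2)
    exact mem_biUnion hV (show i ∈ {i | (i ∈ J ∧ a i ∈ V) ∧ {j | j ∈ J ∧ a j ∈ V}.Countable} from
      And.intro (And.intro hi.1 hiV) h3)

/-- the ordered form of entangledness -/
lemma entangled_ordered (hι : ∀ i : ι, (Iic i).Countable) {E : Set ℝ} (hE : IsEntangled E) {n : ℕ}
    (a : ι → Fin n → ℝ) {J : Set ι} (hJ : ¬ J.Countable)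
    (hinj : ∀ i ∈ J, Function.Injective (a i)) (hmem : ∀ i ∈ J, ∀ p, a i p ∈ E)
    (hdis : ∀ i ∈ J, ∀ j ∈ J, i ≠ j → ∀ p q, a i p ≠ a j q) (t : Fin n → Bool) :
    ∃ d ∈ J, ∃ j ∈ J, d < j ∧ ∀ p, if t p = true then a d p < a j p else a j p < a d p := by
  rcases Nat.eq_zero_or_pos n with rfl | hn
  · obtain ⟨d, hd, j, hj, hdj⟩ := exists_pair hJ
    exact ⟨d, hd, j, hj, hdj, fun p => p.elim0⟩
  obtain ⟨J', hJ'J, hJ', hcond⟩ := exists_condensed a hJ
  have hinjJ : ∀ i ∈ J', ∀ j ∈ J', a i = a j → i = j := by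
    intro i hi j hj h
    by_contra hne
    exact hdis i (hJ'J hi) j (hJ'J hj) hne ⟨0, hn⟩ ⟨0, hn⟩ (congrFun h _)
  have hunc : ¬ (a '' J').Countable := fun h => hJ' (countable_of_injective_of_countable_image
    (fun i hi j hj h => hinjJ i hi j hj h) h)
  obtain ⟨_, ⟨i1, hi1, rfl⟩, _, ⟨i2, hi2, rfl⟩, hpat⟩ := hE n (a '' J') hunc
    (by
      rintro _ ⟨i, hi, rfl⟩
      exact ⟨hinj i (hJ'J hi), hmem i (hJ'J hi)⟩)
    (by
      rintro _ ⟨i, hi, rfl⟩ _ ⟨j, hj, rfl⟩ hne
      exact hdis i (hJ'J hi) j (hJ'J hj) fun h => hne (by rw [h])) t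
  set q : Fin n → ℝ := fun p => (a i1 p + a i2 p) / 2 with hq
  set U : Set (Fin n → ℝ) := {x | ∀ p, if t p = true then x p < q p else q p < x p} with hU
  set V : Set (Fin n → ℝ) := {x | ∀ p, if t p = true then q p < x p else x p < q p} with hV
  have hUo : IsOpen U := by
    have e : U = ⋂ p, {x : Fin n → ℝ | if t p = true then x p < q p else q p < x p} := by
      ext x
      simp [hU]
    rw [e]
    refine isOpen_iInter_of_finite fun p => ?_
    by_cases h : t p = true
    · simp only [h, if_true]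
      exact isOpen_lt (continuous_apply p) continuous_const
    · simp only [h]
      exact isOpen_lt continuous_const (continuous_apply p)
  have hVo : IsOpen V := by
    have e : V = ⋂ p, {x : Fin n → ℝ | if t p = true then q p < x p else x p < q p} := by
      ext x
      simp [hV]
    rw [e]
    refine isOpen_iInter_of_finite fun p => ?_
    by_cases h : t p = true
    · simp only [h, if_true]
      exact isOpen_lt continuous_const (continuous_apply p)
    · simp only [h]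
      exact isOpen_lt (continuous_apply p) continuous_const
  have h1U : a i1 ∈ U := by
    intro p
    have := hpat p
    by_cases h : t p = true
    · simp only [h, if_true] at this ⊢
      simp only [hq]
      linarith
    · simp only [h] at this ⊢
      simp only [hq]
      simp only [Bool.false_eq_true, if_false] at this ⊢
      linarith
  have h2V : a i2 ∈ V := by
    intro p
    have := hpat p
    by_cases h : t p = true
    · simp only [h, if_true] at this ⊢
      simp only [hq]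
      linarith
    · simp only [h] at this ⊢
      simp only [hq]
      simp only [Bool.false_eq_true, if_false] at this ⊢
      linarith
  have hU1 := hcond i1 hi1 U hUo h1U
  have hV1 := hcond i2 hi2 V hVo h2V
  obtain ⟨d, hd⟩ : ∃ d, d ∈ {j | j ∈ J ∧ a j ∈ U} := by
    by_contra hcon
    push Not at hcon
    apply hU1
    rw [eq_empty_of_forall_notMem hcon]
    exact countable_empty
  obtain ⟨j, hj, hdj⟩ : ∃ j ∈ {j | j ∈ J ∧ a j ∈ V}, d < j := by
    by_contra hcon
    push Not at hcon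
    exact hV1 ((hι d).mono fun j hj => hcon j hj)
  refine ⟨d, hd.1, j, hj.1, hdj, fun p => ?_⟩
  have h3 := hd.2 p
  have h4 := hj.2 p
  by_cases h : t p = true
  · simp only [h, if_true] at h3 h4 ⊢
    exact h3.trans h4
  · simp only [h] at h3 h4 ⊢
    simp only [Bool.false_eq_true, if_false] at h3 h4 ⊢
    exact h4.trans h3

/-- thinning out a point-countable family -/
lemma exists_thin [WellFoundedLT ι] [Uncountable ι] (hι : ∀ i : ι, (Iic i).Countable) {n : ℕ}
    (a : ι → Fin n → ι) {J : Set ι} (hJ : ¬ J.Countable)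
    (hpc : ∀ ζ, {i | i ∈ J ∧ ∃ p, a i p ≤ ζ}.Countable) :
    ∃ g : ι → ι, (∀ i, g i ∈ J) ∧ (∀ j i, j < i → g j < g i) ∧
      ∀ j i, j < i → ∀ p q, a (g j) p < a (g i) q := by
  have hstep : ∀ (i : ι) (h : ∀ j, j < i → ι), ∃ i' ∈ J, (∀ j (hj : j < i), h j hj < i') ∧
      ∀ j (hj : j < i), ∀ p q, a (h j hj) p < a i' q := by
    intro i h
    have : Countable (Iio i) := ((hι i).mono Iio_subset_Iic_self).to_subtype
    obtain ⟨γ1, hγ1⟩ := exists_above hι (range fun j : Iio i => h j.1 j.2) (countable_range _)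
    obtain ⟨γ2, hγ2⟩ := exists_above hι (range fun x : Iio i × Fin n => a (h x.1.1 x.1.2) x.2)
      (countable_range _)
    by_contra hcon
    push Not at hcon
    apply hJ
    refine ((hι γ1).union (hpc γ2)).mono fun i' hi' => ?_
    by_contra hi''
    rw [mem_union, not_or] at hi''
    obtain ⟨hi1, hi2⟩ := hi''
    have hi1' : γ1 < i' := not_le.1 hi1
    have hi2' : ∀ q, γ2 < a i' q := by
      intro q
      by_contra hq
      exact hi2 ⟨hi', q, not_lt.1 hq⟩
    obtain ⟨j, hj, p, q, hpq⟩ := hcon i' hi' fun j hj => (hγ1 _ ⟨⟨j, hj⟩, rfl⟩).trans hi1'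
    exact absurd ((hγ2 _ ⟨(⟨j, hj⟩, p), rfl⟩).trans (hi2' q)) (not_lt.2 hpq)
  choose G hG1 hG2 hG3 using hstep
  set e : ι → ι := (wellFounded_lt (α := ι)).fix G with he
  have hfix : ∀ i, e i = G i fun j _ => e j := fun i => (wellFounded_lt (α := ι)).fix_eq G i
  refine ⟨e, fun i => ?_, fun j i hji => ?_, fun j i hji p q => ?_⟩
  · rw [hfix]
    exact hG1 _ _
  · rw [hfix i]
    exact hG2 i (fun j _ => e j) j hji
  · rw [hfix i]
    exact hG3 i (fun j _ => e j) j hji p q

section Coloring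

variable (e : ι → ℕ → ℝ) (r : ι → ℕ → Bool)

/-- the first difference -/
noncomputable def dl (ξ δ : ι) : ℕ := sInf {s | r ξ s ≠ r δ s}

/-- the coloring -/
noncomputable def kk (ξ δ : ι) : ℕ := sInf {j | j ≤ dl r ξ δ ∧ e ξ j < e δ j}

lemma dl_spec {ξ δ : ι} (h : r ξ ≠ r δ) : r ξ (dl r ξ δ) ≠ r δ (dl r ξ δ) := by
  have h1 : {s | r ξ s ≠ r δ s}.Nonempty := Function.ne_iff.1 h
  exact Nat.sInf_mem h1

lemma dl_lt {ξ δ : ι} {s : ℕ} (h : s < dl r ξ δ) : r ξ s = r δ s := by
  by_contra hcon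
  exact absurd (Nat.sInf_le (s := {s | r ξ s ≠ r δ s}) hcon) (not_le.2 h)

lemma le_dl {ξ δ : ι} (h : r ξ ≠ r δ) {M : ℕ} (h2 : ∀ s < M, r ξ s = r δ s) : M ≤ dl r ξ δ := by
  by_contra hcon
  exact dl_spec r h (h2 _ (not_le.1 hcon))

lemma dl_eq {ξ δ δ' : ι} (h : r ξ ≠ r δ) (h2 : ∀ s < dl r ξ δ + 1, r δ' s = r δ s) :
    dl r ξ δ' = dl r ξ δ := by
  apply le_antisymm
  · refine Nat.sInf_le (s := {s | r ξ s ≠ r δ' s}) ?_
    show r ξ (dl r ξ δ) ≠ r δ' (dl r ξ δ)
    rw [h2 _ (Nat.lt_succ_self _)]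
    exact dl_spec r h
  · refine le_dl r ?_ fun s hs => ?_
    · intro h3
      apply dl_spec r h
      rw [h3, h2 _ (Nat.lt_succ_self _)]
    · rw [h2 s (by omega)]
      exact dl_lt r hs

/-- the coloring is locally constant off the diagonal -/
lemma kk_local (dec : ℕ → ℕ × ℚ) (hdec : Function.Surjective dec)
    (hr : ∀ ξ s, r ξ s = decide (e ξ (dec s).1 < ((dec s).2 : ℝ)))
    (he : ∀ ξ δ, ξ ≠ δ → ∀ j, e ξ j ≠ e δ j) (hri : Function.Injective r) (ξ δ : ι) (h : ξ ≠ δ) :
    ∃ M : ℕ, ∀ δ', (∀ s < M, r δ' s = r δ s) → kk e r ξ δ' = kk e r ξ δ := by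
  have h1 : ∀ j, ∃ s : ℕ, ∀ δ', r δ' s = r δ s → (e ξ j < e δ' j ↔ e ξ j < e δ j) := by
    intro j
    rcases lt_or_gt_of_ne (he ξ δ h j) with h2 | h2
    · obtain ⟨q, hq1, hq2⟩ := exists_rat_btwn h2
      obtain ⟨s, hs⟩ := hdec (j, q)
      refine ⟨s, fun δ' h3 => ⟨fun _ => h2, fun _ => ?_⟩⟩
      rw [hr, hr, hs] at h3
      simp only [decide_eq_decide] at h3
      have h4 : ¬ e δ j < (q : ℝ) := not_lt.2 hq2.le
      have h5 : ¬ e δ' j < (q : ℝ) := fun h6 => h4 (h3.1 h6)
      exact hq1.trans_le (not_lt.1 h5)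
    · obtain ⟨q, hq1, hq2⟩ := exists_rat_btwn h2
      obtain ⟨s, hs⟩ := hdec (j, q)
      refine ⟨s, fun δ' h3 => ⟨fun h7 => ?_, fun h7 => absurd h7 (not_lt.2 h2.le)⟩⟩
      rw [hr, hr, hs] at h3
      simp only [decide_eq_decide] at h3
      have h6 : e δ' j < (q : ℝ) := h3.2 hq1
      exact absurd (h7.trans h6) (not_lt.2 hq2.le)
  choose s hs using h1
  refine ⟨max (dl r ξ δ + 1) ((Finset.range (dl r ξ δ + 1)).sup s + 1), fun δ' h2 => ?_⟩
  have h3 : dl r ξ δ' = dl r ξ δ := dl_eq r (fun h' => h (hri h')) fun s hs => h2 s (by omega)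
  have h4 : {j | j ≤ dl r ξ δ' ∧ e ξ j < e δ' j} = {j | j ≤ dl r ξ δ ∧ e ξ j < e δ j} := by
    ext j
    simp only [mem_ofPred_eq]
    rw [h3]
    refine and_congr_right fun hj => hs j δ' (h2 _ ?_)
    have h5 : s j ≤ (Finset.range (dl r ξ δ + 1)).sup s :=
      Finset.le_sup (Finset.mem_range.2 (by omega))
    omega
  unfold kk
  rw [h4]

end Coloring

theorem isPattern_of_entangled [WellFoundedLT ι] [Uncountable ι] (hι : ∀ i : ι, (Iic i).Countable)
    {E : Set ℝ} (hE : IsEntangled E) (e : ι → ℕ → ℝ)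
    (he : Function.Injective fun x : ι × ℕ => e x.1 x.2) (hmem : ∀ ξ j, e ξ j ∈ E) :
    ∃ k : ι → ι → ℕ, IsPattern k := by
  classical
  obtain ⟨dec, hdec⟩ := exists_surjective_nat (ℕ × ℚ)
  set r : ι → ℕ → Bool := fun ξ s => decide (e ξ (dec s).1 < ((dec s).2 : ℝ)) with hr
  have he1 : ∀ ξ δ, ξ ≠ δ → ∀ j, e ξ j ≠ e δ j := by
    intro ξ δ hne j h
    exact hne (congrArg Prod.fst (he (a₁ := (ξ, j)) (a₂ := (δ, j)) h))
  have hri : Function.Injective r := by
    intro ξ δ h
    by_contra hne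
    have h2 : ∀ q : ℚ, (e ξ 0 < (q : ℝ) ↔ e δ 0 < (q : ℝ)) := by
      intro q
      obtain ⟨s, hs⟩ := hdec (0, q)
      have h3 := congrFun h s
      simp only [hr, hs, decide_eq_decide] at h3
      exact h3
    rcases lt_or_gt_of_ne (he1 ξ δ hne 0) with h3 | h3
    · obtain ⟨q, hq1, hq2⟩ := exists_rat_btwn h3
      exact absurd ((h2 q).1 hq1) (not_lt.2 hq2.le)
    · obtain ⟨q, hq1, hq2⟩ := exists_rat_btwn h3
      exact absurd ((h2 q).2 hq1) (not_lt.2 hq2.le)
  have hloc := kk_local e r dec hdec (fun _ _ => rfl) he1 hri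
  refine ⟨kk e r, fun n a J hJ hinj hpc κ => ?_⟩
  set C : ℕ := Finset.univ.sup κ with hC
  have hκC : ∀ p, κ p ≤ C := fun p => Finset.le_sup (Finset.mem_univ p)
  -- the modulus
  have hmod : ∀ i, ∃ M : ℕ, i ∈ J → C + 1 ≤ M ∧ ∀ p q, p ≠ q → ∀ δ',
      (∀ s < M, r δ' s = r (a i q) s) → kk e r (a i p) δ' = kk e r (a i p) (a i q) := by
    intro i
    by_cases hi : i ∈ J
    · have h1 : ∀ pq : Fin n × Fin n, ∃ M : ℕ, pq.1 ≠ pq.2 → ∀ δ',
          (∀ s < M, r δ' s = r (a i pq.2) s) →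
            kk e r (a i pq.1) δ' = kk e r (a i pq.1) (a i pq.2) := by
        rintro ⟨p, q⟩
        by_cases hpq : p = q
        · exact ⟨0, fun h => absurd hpq h⟩
        · obtain ⟨M, hM⟩ := hloc (a i p) (a i q) fun h => hpq (hinj i hi h)
          exact ⟨M, fun _ => hM⟩
      choose M hM using h1
      refine ⟨max (C + 1) (Finset.univ.sup M), fun _ => ⟨le_max_left _ _, fun p q hpq δ' h => ?_⟩⟩
      refine hM (p, q) hpq δ' fun s hs => h s ?_
      have h2 : M (p, q) ≤ Finset.univ.sup M := Finset.le_sup (Finset.mem_univ _)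
      omega
    · exact ⟨0, fun h => absurd h hi⟩
  choose M' hM' using hmod
  obtain ⟨M, hM⟩ := pigeon hJ M'
  set data : ι → (Fin n → Fin M → Bool) := fun i p => res M (r (a i p)) with hdata
  obtain ⟨D0, hD0⟩ := pigeon hM data
  set J3 : Set ι := {i | i ∈ {i | i ∈ J ∧ M' i = M} ∧ data i = D0} with hJ3
  obtain ⟨g, hg1, hg2, hg3⟩ := exists_thin hι a hD0 (fun ζ => (hpc ζ).mono fun i hi =>
    And.intro hi.1.1.1 hi.2)
  have hgJ : ∀ i, g i ∈ J := fun i => (hg1 i).1.1
  have hgne : ∀ i j, i ≠ j → ∀ p q, a (g i) p ≠ a (g j) q := by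
    intro i j hij p q
    rcases lt_or_gt_of_ne hij with h | h
    · exact (hg3 i j h p q).ne
    · exact (hg3 j i h q p).ne'
  set b : ι → Fin (n * (C + 1)) → ℝ := fun i x =>
    e (a (g i) (finProdFinEquiv.symm x).1) (finProdFinEquiv.symm x).2 with hb
  set t : Fin (n * (C + 1)) → Bool := fun x =>
    decide (((finProdFinEquiv.symm x).2 : ℕ) = κ (finProdFinEquiv.symm x).1) with ht
  have huniv : ¬ (univ : Set ι).Countable := fun h => not_countable (α := ι) (countable_univ_iff.1 h)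
  obtain ⟨d, -, j, -, hdj, hpat⟩ := entangled_ordered hι hE b huniv
    (by
      intro i _ x y hxy
      have h1 := he (a₁ := (a (g i) (finProdFinEquiv.symm x).1, ((finProdFinEquiv.symm x).2 : ℕ)))
        (a₂ := (a (g i) (finProdFinEquiv.symm y).1, ((finProdFinEquiv.symm y).2 : ℕ))) hxy
      have h2 : (finProdFinEquiv.symm x).1 = (finProdFinEquiv.symm y).1 :=
        hinj (g i) (hgJ i) (congrArg Prod.fst h1)
      have h3 : (finProdFinEquiv.symm x).2 = (finProdFinEquiv.symm y).2 :=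
        Fin.ext (congrArg Prod.snd h1)
      exact finProdFinEquiv.symm.injective (Prod.ext h2 h3))
    (fun i _ x => hmem _ _)
    (by
      intro i _ j _ hij x y hxy
      have h1 := he (a₁ := (a (g i) (finProdFinEquiv.symm x).1, ((finProdFinEquiv.symm x).2 : ℕ)))
        (a₂ := (a (g j) (finProdFinEquiv.symm y).1, ((finProdFinEquiv.symm y).2 : ℕ))) hxy
      exact hgne i j hij _ _ (congrArg Prod.fst h1)) t
  have hpat' : ∀ p : Fin n, ∀ s : ℕ, s < C + 1 →
      if s = κ p then e (a (g d) p) s < e (a (g j) p) s else e (a (g j) p) s < e (a (g d) p) s := by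
    intro p s hs
    have h1 := hpat (finProdFinEquiv (p, ⟨s, hs⟩))
    simp only [hb, ht, Equiv.symm_apply_apply, decide_eq_true_eq] at h1
    exact h1
  have hsame : ∀ p, ∀ s < M, r (a (g d) p) s = r (a (g j) p) s := by
    intro p s hs
    have h1 : data (g d) = data (g j) := (hg1 d).2.trans (hg1 j).2.symm
    exact congrFun (congrFun h1 p) ⟨s, hs⟩
  have hMd := hM' (g d) (hgJ d)
  rw [(hg1 d).1.2] at hMd
  refine ⟨g d, hgJ d, g j, hgJ j, hg2 d j hdj, hg3 d j hdj, fun p => ?_, fun p q hpq => ?_⟩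
  · -- the diagonal
    have hne : r (a (g d) p) ≠ r (a (g j) p) := fun h => hgne d j hdj.ne p p (hri h)
    have h1 : M ≤ dl r (a (g d) p) (a (g j) p) := le_dl r hne (hsame p)
    have h2 : κ p ∈ {j' | j' ≤ dl r (a (g d) p) (a (g j) p) ∧ e (a (g d) p) j' < e (a (g j) p) j'} := by
      refine ⟨?_, ?_⟩
      · have := hκC p
        omega
      · have := hpat' p (κ p) (by have := hκC p; omega)
        simpa using this
    apply le_antisymm
    · exact Nat.sInf_le h2
    · refine le_csInf ⟨_, h2⟩ fun s hs => ?_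
      by_contra hcon
      push Not at hcon
      have h3 := hpat' p s (by have := hκC p; omega)
      rw [if_neg hcon.ne] at h3
      exact absurd hs.2 (not_lt.2 h3.le)
  · exact hMd.2 p q hpq _ fun s hs => (hsame q s hs).symm

end Pool.Agent.Lib.MP_8c4e2c_gt.EN
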