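import Pool.Agent.Lib.MP_8c4e2c_gt.EN.Pat

/-!
# All finite powers of the space are hereditarily Lindelof
-/

set_option autoImplicit false

namespace Pool.Agent.Lib.MP_8c4e2c_gt.EN

open Set Filter Topology
open Pool.Agent.Lib.MP_8c4e2c_gt.BN

variable {ι : Type} [LinearOrder ι]

lemma res_le {K K' : ℕ} (h : K' ≤ K) {z w : ℕ → Bool} (e : res K z = res K w) :
    res K' z = res K' w := by
  funext s
  exact congrFun e ⟨s, lt_of_lt_of_le s.2 h⟩

theorem hl_pi [WellFoundedLT ι] [Uncountable ι] (hι : ∀ i : ι, (Iic i).Countable)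
    (k : ι → ι → ℕ) (hk : IsPattern k) (r : ι → ℕ → Bool)
    (dec : ℕ → Tab) (hdec : Function.Surjective dec) (B : Set (ℕ → Bool)) (n : ℕ) :
    @HereditarilyLindelofSpace (Fin n → Pt ι) (@Pi.topologicalSpace _ _ fun _ => topo k r dec B) := by
  classical
  let _ : TopologicalSpace (Pt ι) := topo k r dec B
  refine hl_criterion (fun i => (hι i).mono Iio_subset_Iic_self) fun x U hU hxU => ?_
  -- basic neighbourhoods
  have h1 : ∀ i, ∃ (F : Finset ι) (m : ℕ), ∀ y : Fin n → Pt ι,
      (∀ l, y l ∈ Nb k r dec B (x i l) F m) → y ∈ U i := fun i =>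
    exists_Nb_pi k r dec B (U i) (hU i) (x i) (hxU i)
  choose F m hFm using h1
  set G : ι → Finset ι := fun i => F i ∪ Finset.univ.image fun l => (x i l).δ with hG
  have hFG : ∀ i, F i ⊆ G i := fun i => Finset.subset_union_left
  have hδG : ∀ i l, (x i l).δ ∈ G i := fun i l =>
    Finset.mem_union_right _ (Finset.mem_image.2 ⟨l, Finset.mem_univ _, rfl⟩)
  have huniv : ¬ (univ : Set ι).Countable := fun h => not_countable (α := ι) (countable_univ_iff.1 h)
  obtain ⟨R, J1, N, -, hJ1, hR, hN, hpc⟩ := exists_root G univ huniv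
  -- the tuples
  set n' : ℕ := N - R.card with hn'
  have hcard : ∀ i ∈ J1, (G i \ R).card = n' := by
    intro i hi
    rw [Finset.card_sdiff_of_subset (hR i hi), hN i hi]
  have ha : ∀ i, ∃ a : Fin n' → ι, i ∈ J1 → Function.Injective a ∧ ∀ ζ, (∃ p, a p = ζ) ↔ ζ ∈ G i \ R := by
    intro i
    by_cases hi : i ∈ J1
    · refine ⟨(G i \ R).orderEmbOfFin (hcard i hi), fun _ =>
        ⟨((G i \ R).orderEmbOfFin (hcard i hi)).injective, fun ζ => ?_⟩⟩
      have h2 := Finset.range_orderEmbOfFin (G i \ R) (hcard i hi)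
      show ζ ∈ range ((G i \ R).orderEmbOfFin (hcard i hi)) ↔ _
      rw [h2]
      exact Finset.mem_coe
    · exact ⟨fun _ => i, fun h => absurd h hi⟩
  choose a ha using ha
  have hpc1 : ∀ ζ, {i | i ∈ J1 ∧ ∃ p, a i p ≤ ζ}.Countable := by
    intro ζ
    have h2 : {i | i ∈ J1 ∧ ∃ p, a i p ≤ ζ} ⊆ ⋃ ζ' ∈ Iic ζ, {i | ζ' ∉ R ∧ i ∈ J1 ∧ ζ' ∈ G i} := by
      rintro i ⟨hi, p, hp⟩
      refine mem_biUnion (show a i p ∈ Iic ζ from hp) ?_
      have h3 := ((ha i hi).2 (a i p)).1 ⟨p, rfl⟩
      rw [Finset.mem_sdiff] at h3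
      exact ⟨h3.2, hi, h3.1⟩
    refine ((hι ζ).biUnion fun ζ' _ => ?_).mono h2
    by_cases h3 : ζ' ∈ R
    · convert countable_empty
      ext i
      simp [h3]
    · exact (hpc ζ' h3).mono fun i hi => hi.2
  -- the resolution
  have hres : ∀ i, ∃ K : ℕ, m i ≤ K ∧ (∀ p q, (dec (k (a i p) (a i q))).1 ≤ K) ∧
      (∀ p, ∀ ρ ∈ R, (dec (k (a i p) ρ)).1 ≤ K) ∧
      ∀ l l', (∀ s < K, (x i l).z s = (x i l').z s) → (x i l).z = (x i l').z := by
    intro i
    obtain ⟨K2, hK2⟩ := exists_res fun l => (x i l).z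
    refine ⟨max (max (m i) K2) (max
      (Finset.univ.sup fun pq : Fin n' × Fin n' => (dec (k (a i pq.1) (a i pq.2))).1)
      (Finset.univ.sup fun p : Fin n' => R.sup fun ρ => (dec (k (a i p) ρ)).1)), by omega, ?_, ?_, ?_⟩
    · intro p q
      have h2 := Finset.le_sup (f := fun pq : Fin n' × Fin n' => (dec (k (a i pq.1) (a i pq.2))).1)
        (Finset.mem_univ (p, q))
      exact le_trans h2 (le_trans (le_max_left _ _) (le_max_right _ _))
    · intro p ρ hρ
      have h2 := Finset.le_sup (f := fun p : Fin n' => R.sup fun ρ => (dec (k (a i p) ρ)).1)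
        (Finset.mem_univ p)
      have h3 := Finset.le_sup (f := fun ρ => (dec (k (a i p) ρ)).1) hρ
      exact le_trans (le_trans h3 h2) (le_trans (le_max_right _ _) (le_max_right _ _))
    · exact fun l l' h => hK2 l l' fun s hs => h s (by omega)
  choose K' hK1 hKd hKr hK3 using hres
  obtain ⟨K, hK⟩ := pigeon hJ1 K'
  -- all finite data
  have hpos : ∀ i (l : Fin n), ∃ o : Option (Fin n'), (∀ q, o = some q → a i q = (x i l).δ) ∧
      (o = none → ∀ q, a i q ≠ (x i l).δ) := by
    intro i l
    by_cases h : ∃ q, a i q = (x i l).δ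
    · obtain ⟨q, hq⟩ := h
      refine ⟨some q, fun q' hq' => ?_, fun h => by simp at h⟩
      rw [← Option.some_injective _ hq']
      exact hq
    · push Not at h
      exact ⟨none, fun q hq => by simp at hq, fun _ => h⟩
  choose pos hpos1 hpos2 using hpos
  set data : ι → (Fin n → Option (Fin n')) × (Fin n → Option {ρ // ρ ∈ R}) ×
      (Fin n → Fin K → Bool) × (Fin n → Fin K → Bool) ×
      (Fin n' → Fin n → Bool) × ({ρ // ρ ∈ R} → Fin n → Bool) := fun i =>
    (pos i, (fun l => if h : (x i l).δ ∈ R then some ⟨(x i l).δ, h⟩ else none),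
      (fun l => res K (r (x i l).δ)), (fun l => res K (x i l).z),
      (fun p l => chi k dec B (a i p) (x i l)), fun ρ l => chi k dec B ρ.1 (x i l)) with hdata
  obtain ⟨D0, hD0⟩ := pigeon hK data
  set J3 : Set ι := {i | i ∈ {i | i ∈ J1 ∧ K' i = K} ∧ data i = D0} with hJ3
  have hJ3J1 : ∀ i ∈ J3, i ∈ J1 := fun i hi => hi.1.1
  have hJ3K : ∀ i ∈ J3, K' i = K := fun i hi => hi.1.2
  -- a reference member
  obtain ⟨i0, hi0⟩ : ∃ i0, i0 ∈ J3 := by
    by_contra hcon
    push Not at hcon
    exact hD0 (by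
      have : J3 = ∅ := eq_empty_of_forall_notMem hcon
      rw [this]
      exact countable_empty)
  have hsame : ∀ i ∈ J3, data i = data i0 := fun i hi => hi.2.trans hi0.2.symm
  have s1 : ∀ i ∈ J3, ∀ l, pos i l = pos i0 l := fun i hi l =>
    congrFun (congrArg (fun d => d.1) (hsame i hi)) l
  have s2 : ∀ i ∈ J3, ∀ l, (if h : (x i l).δ ∈ R then some (⟨(x i l).δ, h⟩ : {ρ // ρ ∈ R}) else none) =
      if h : (x i0 l).δ ∈ R then some ⟨(x i0 l).δ, h⟩ else none := fun i hi l =>
    congrFun (congrArg (fun d => d.2.1) (hsame i hi)) l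
  have s4 : ∀ i ∈ J3, ∀ l, res K (r (x i l).δ) = res K (r (x i0 l).δ) := fun i hi l =>
    congrFun (congrArg (fun d => d.2.2.1) (hsame i hi)) l
  have s5 : ∀ i ∈ J3, ∀ l, res K (x i l).z = res K (x i0 l).z := fun i hi l =>
    congrFun (congrArg (fun d => d.2.2.2.1) (hsame i hi)) l
  have s6 : ∀ i ∈ J3, ∀ p l, chi k dec B (a i p) (x i l) = chi k dec B (a i0 p) (x i0 l) :=
    fun i hi p l => congrFun (congrFun (congrArg (fun d => d.2.2.2.2.1) (hsame i hi)) p) l
  have s7 : ∀ i ∈ J3, ∀ ρ : {ρ // ρ ∈ R}, ∀ l, chi k dec B ρ.1 (x i l) =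
      chi k dec B ρ.1 (x i0 l) :=
    fun i hi ρ l => congrFun (congrFun (congrArg (fun d => d.2.2.2.2.2) (hsame i hi)) ρ) l
  -- the tables
  set h : Fin n' → (Fin K → Bool) → Bool := fun p u =>
    decide (∃ l, pos i0 l = some p ∧ res K (x i0 l).z = u ∧
      chi k dec B (a i0 p) (x i0 l) = true) with hh
  have hγ : ∀ p, ∃ γ : ℕ, dec γ = ⟨K, h p⟩ := fun p => hdec ⟨K, h p⟩
  choose κ hκ using hγ
  obtain ⟨d, hd, j, hj, hdj, hlt, hdiag, hoff⟩ := hk n' a J3 hD0 (fun i hi => (ha i (hJ3J1 i hi)).1)
    (fun ζ => (hpc1 ζ).mono fun i hi => And.intro (hJ3J1 i hi.1) hi.2) κ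
  have hne : ∀ p q, a d p ≠ a j q := fun p q => (hlt p q).ne
  have e5 : ∀ l, res K (x j l).z = res K (x d l).z := fun l => (s5 j hj l).trans (s5 d hd l).symm
  refine ⟨d, j, hdj, hFm d (x j) fun l => ⟨?_, ?_⟩⟩
  · intro s hs
    have hsK : s < K := by
      have := hK1 d
      rw [hJ3K d hd] at this
      omega
    constructor
    · have h2 := congrFun ((s4 j hj l).trans (s4 d hd l).symm) ⟨s, hsK⟩
      exact h2
    · exact congrFun (e5 l) ⟨s, hsK⟩
  · intro ξ hξ
    by_cases hξR : ξ ∈ R
    · exact (s7 j hj ⟨ξ, hξR⟩ l).trans (s7 d hd ⟨ξ, hξR⟩ l).symm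
    · obtain ⟨p, hp⟩ := ((ha d (hJ3J1 d hd)).2 ξ).2 (Finset.mem_sdiff.2 ⟨hFG d hξ, hξR⟩)
      rw [← hp]
      rcases hposd : pos d l with _ | q
      · -- the index of the point is in the root
        have e1 := hpos2 d l hposd
        have hδR : (x d l).δ ∈ R := by
          by_contra hcon
          obtain ⟨q, hq⟩ := ((ha d (hJ3J1 d hd)).2 (x d l).δ).2
            (Finset.mem_sdiff.2 ⟨hδG d l, hcon⟩)
          exact e1 q hq
        have e2 := (s2 j hj l).trans (s2 d hd l).symm
        rw [dif_pos hδR] at e2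
        have hδj : (x j l).δ = (x d l).δ := by
          by_cases h3 : (x j l).δ ∈ R
          · rw [dif_pos h3] at e2
            have h4 := Option.some_injective _ e2
            exact congrArg Subtype.val h4
          · rw [dif_neg h3] at e2
            simp at e2
        have e3 : a d p ≠ (x d l).δ := by
          intro h3
          exact hξR (by rw [← hp, h3]; exact hδR)
        have e4 : (dec (k (a d p) (x d l).δ)).1 ≤ K := by
          have := hKr d p _ hδR
          rwa [hJ3K d hd] at this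
        unfold chi
        rw [hδj, if_neg e3, if_neg e3, res_le e4 (e5 l)]
      · have e1 : a d q = (x d l).δ := hpos1 d l q hposd
        have hposj : pos j l = some q := by rw [s1 j hj l, ← s1 d hd l, hposd]
        have hpos0 : pos i0 l = some q := by rw [← s1 d hd l, hposd]
        have e2 : a j q = (x j l).δ := hpos1 j l q hposj
        by_cases hpq : p = q
        · subst hpq
          have e3 : chi k dec B (a d p) (x j l) = h p (res K (x j l).z) := by
            unfold chi
            rw [← e2, if_neg (hne p p), hdiag p, hκ p]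
          rw [e3, s5 j hj l, s6 d hd p l]
          -- the table has the right value
          have e4 : (∃ l', pos i0 l' = some p ∧ res K (x i0 l').z = res K (x i0 l).z ∧
              chi k dec B (a i0 p) (x i0 l') = true) ↔
              chi k dec B (a i0 p) (x i0 l) = true := by
            constructor
            · rintro ⟨l', f1, f4, f5⟩
              have hKi0 : K' i0 = K := hJ3K i0 hi0
              have g3 : (x i0 l').z = (x i0 l).z := by
                refine hK3 i0 l' l fun s hs => ?_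
                rw [hKi0] at hs
                exact congrFun f4 ⟨s, hs⟩
              have g4 : (x i0 l').δ = (x i0 l).δ := by
                rw [← hpos1 i0 l' p f1, ← hpos1 i0 l p hpos0]
              have g5 : x i0 l' = x i0 l := by
                rcases hx1 : x i0 l' with ⟨δ1, z1⟩
                rcases hx2 : x i0 l with ⟨δ2, z2⟩
                rw [hx1, hx2] at g3 g4
                simp only at g3 g4
                rw [g3, g4]
              rw [← g5]
              exact f5
            · intro f5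
              exact ⟨l, hpos0, rfl, f5⟩
          simp only [hh]
          by_cases hv : chi k dec B (a i0 p) (x i0 l) = true
          · rw [hv, decide_eq_true_iff]
            exact e4.2 hv
          · have hv' : chi k dec B (a i0 p) (x i0 l) = false := by simpa using hv
            rw [hv', decide_eq_false_iff_not]
            exact fun h' => hv (e4.1 h')
        · have e6 : a d p ≠ a d q := fun h3 => hpq ((ha d (hJ3J1 d hd)).1 h3)
          have e7 : (dec (k (a d p) (a d q))).1 ≤ K := by
            have := hKd d p q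
            rwa [hJ3K d hd] at this
          unfold chi
          rw [← e2, ← e1, if_neg (hne p q), if_neg e6, hoff p q hpq, res_le e7 (e5 l)]

end Pool.Agent.Lib.MP_8c4e2c_gt.EN
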