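import Pool.Agent.Lib.MP_8c4e2c_gt.BN.HL
import Pool.Agent.Lib.MP_8c4e2c_gt.BN.NotSeq

/-!
# The space attached to a pattern coloring
-/

set_option autoImplicit false

namespace Pool.Agent.Lib.MP_8c4e2c_gt.EN

open Set Filter Topology
open Pool.Agent.Lib.MP_8c4e2c_gt.BN

variable {ι : Type} [LinearOrder ι]

/-- A coloring `k` of ordered pairs such that every point-countable family of injective `n`-tuples,
indexed by an uncountable subset of `ι`, has for all colors `κ` two members `a d`, `a j`, the first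
one below the second one, with `k (a d p) (a j p) = κ p` for all `p` and
`k (a d p) (a j q) = k (a d p) (a d q)` for `p ≠ q`. -/
def IsPattern (k : ι → ι → ℕ) : Prop :=
  ∀ (n : ℕ) (a : ι → Fin n → ι) (J : Set ι), ¬ J.Countable →
    (∀ i ∈ J, Function.Injective (a i)) →
    (∀ ζ, {i | i ∈ J ∧ ∃ p, a i p ≤ ζ}.Countable) → ∀ κ : Fin n → ℕ, ∃ d ∈ J, ∃ j ∈ J, d < j ∧
      (∀ p q, a d p < a j q) ∧ (∀ p, k (a d p) (a j p) = κ p) ∧
      ∀ p q, p ≠ q → k (a d p) (a j q) = k (a d p) (a d q)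

/-- finite tables -/
abbrev Tab : Type := Σ K : ℕ, ((Fin K → Bool) → Bool)

open Classical in
/-- the coordinate functions -/
noncomputable def chi (k : ι → ι → ℕ) (dec : ℕ → Tab) (B : Set (ℕ → Bool))
    (ξ : ι) (x : Pt ι) : Bool :=
  if ξ = x.δ then decide (x.z ∈ B) else (dec (k ξ x.δ)).2 (res _ x.z)

/-- the map defining the topology -/
noncomputable def Phi (k : ι → ι → ℕ) (r : ι → ℕ → Bool) (dec : ℕ → Tab) (B : Set (ℕ → Bool))
    (x : Pt ι) : (ℕ → Bool) × (ℕ → Bool) × (ι → Bool) :=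
  (r x.δ, x.z, fun ξ => chi k dec B ξ x)

/-- the topology -/
@[reducible] noncomputable def topo (k : ι → ι → ℕ) (r : ι → ℕ → Bool) (dec : ℕ → Tab)
    (B : Set (ℕ → Bool)) : TopologicalSpace (Pt ι) :=
  TopologicalSpace.induced (Phi k r dec B) inferInstance

section Basic

variable (k : ι → ι → ℕ) (r : ι → ℕ → Bool) (dec : ℕ → Tab) (B : Set (ℕ → Bool))

lemma Phi_injective (hr : Function.Injective r) : Function.Injective (Phi k r dec B) := by
  rintro ⟨δ, z⟩ ⟨δ', z'⟩ h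
  simp only [Phi, Prod.mk.injEq] at h
  obtain ⟨h1, h2, -⟩ := h
  rw [hr h1, h2]

lemma t35 (hr : Function.Injective r) : @T35Space (Pt ι) (topo k r dec B) := by
  let _ : TopologicalSpace (Pt ι) := topo k r dec B
  have h : IsEmbedding (Phi k r dec B) := ⟨⟨rfl⟩, Phi_injective k r dec B hr⟩
  exact h.t35Space

/-- basic neighbourhoods -/
def Nb (x : Pt ι) (F : Finset ι) (m : ℕ) : Set (Pt ι) :=
  {y | (∀ s < m, r y.δ s = r x.δ s ∧ y.z s = x.z s) ∧
    ∀ ξ ∈ F, chi k dec B ξ y = chi k dec B ξ x}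

lemma continuous_Phi : @Continuous _ _ (topo k r dec B) _ (Phi k r dec B) :=
  continuous_induced_dom

lemma continuous_chi (ξ : ι) : @Continuous _ _ (topo k r dec B) _ (chi k dec B ξ) := by
  let _ : TopologicalSpace (Pt ι) := topo k r dec B
  have h := continuous_Phi k r dec B
  exact (continuous_apply ξ).comp (continuous_snd.comp (continuous_snd.comp h))

lemma isOpen_Nb (x : Pt ι) (F : Finset ι) (m : ℕ) : IsOpen[topo k r dec B] (Nb k r dec B x F m) := by
  let _ : TopologicalSpace (Pt ι) := topo k r dec B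
  have h := continuous_Phi k r dec B
  have h1 : Continuous fun y : Pt ι => r y.δ := continuous_fst.comp h
  have h2 : Continuous fun y : Pt ι => y.z := continuous_fst.comp (continuous_snd.comp h)
  have e : Nb k r dec B x F m = (⋂ s ∈ Finset.range m,
      ({y | r y.δ s = r x.δ s} ∩ {y | y.z s = x.z s})) ∩
      ⋂ ξ ∈ F, {y | chi k dec B ξ y = chi k dec B ξ x} := by
    ext y
    simp only [Nb, mem_ofPred_eq, mem_inter_iff, mem_iInter, Finset.mem_range]
  rw [e]
  refine IsOpen.inter ?_ ?_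
  · refine isOpen_biInter_finset fun s _ => IsOpen.inter ?_ ?_
    · exact (isOpen_discrete ({r x.δ s} : Set Bool)).preimage ((continuous_apply s).comp h1)
    · exact (isOpen_discrete ({x.z s} : Set Bool)).preimage ((continuous_apply s).comp h2)
  · refine isOpen_biInter_finset fun ξ _ => ?_
    exact (isOpen_discrete ({chi k dec B ξ x} : Set Bool)).preimage (continuous_chi k r dec B ξ)

lemma mem_Nb (x : Pt ι) (F : Finset ι) (m : ℕ) : x ∈ Nb k r dec B x F m :=
  ⟨fun _ _ => ⟨rfl, rfl⟩, fun _ _ => rfl⟩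

lemma exists_Nb (G : Set (Pt ι)) (hG : IsOpen[topo k r dec B] G) (x : Pt ι) (hx : x ∈ G) :
    ∃ (F : Finset ι) (m : ℕ), Nb k r dec B x F m ⊆ G := by
  obtain ⟨V, hV, rfl⟩ := isOpen_induced_iff.1 hG
  obtain ⟨O1, O', hO1, hO', hx1, hx', hsub⟩ := isOpen_prod_iff.1 hV (Phi k r dec B x).1
    (Phi k r dec B x).2 hx
  obtain ⟨O2, O3, hO2, hO3, hx2, hx3, hsub'⟩ := isOpen_prod_iff.1 hO' (Phi k r dec B x).2.1
    (Phi k r dec B x).2.2 hx'
  obtain ⟨m1, hm1⟩ := exists_cyl O1 hO1 _ hx1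
  obtain ⟨m2, hm2⟩ := exists_cyl O2 hO2 _ hx2
  obtain ⟨I, u, hu, hsubI⟩ := isOpen_pi_iff.1 hO3 _ hx3
  refine ⟨I, max m1 m2, fun y hy => ?_⟩
  have h1 : (Phi k r dec B y).1 ∈ O1 := hm1 _ fun s hs => (hy.1 s (by omega)).1
  have h2 : (Phi k r dec B y).2.1 ∈ O2 := hm2 _ fun s hs => (hy.1 s (by omega)).2
  have h3 : (Phi k r dec B y).2.2 ∈ O3 := by
    refine hsubI fun ξ hξ => ?_
    have h4 : (Phi k r dec B y).2.2 ξ = (Phi k r dec B x).2.2 ξ := hy.2 ξ hξ
    rw [h4]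
    exact (hu ξ hξ).2
  exact hsub (mk_mem_prod h1 (hsub' (mk_mem_prod h2 h3)))

lemma Nb_anti (x : Pt ι) {F F' : Finset ι} {m m' : ℕ} (hF : F ⊆ F') (hm : m ≤ m') :
    Nb k r dec B x F' m' ⊆ Nb k r dec B x F m :=
  fun _ hy => ⟨fun s hs => hy.1 s (by omega), fun ξ hξ => hy.2 ξ (hF hξ)⟩

lemma exists_Nb_pi {n : ℕ} (G : Set (Fin n → Pt ι))
    (hG : IsOpen[@Pi.topologicalSpace _ _ fun _ => topo k r dec B] G)
    (x : Fin n → Pt ι) (hx : x ∈ G) :
    ∃ (F : Finset ι) (m : ℕ), ∀ y : Fin n → Pt ι, (∀ l, y l ∈ Nb k r dec B (x l) F m) → y ∈ G := by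
  classical
  let _ : TopologicalSpace (Pt ι) := topo k r dec B
  obtain ⟨I, u, hu, hsub⟩ := isOpen_pi_iff.1 hG x hx
  have h1 : ∀ l : Fin n, ∃ (F : Finset ι) (m : ℕ), l ∈ I → Nb k r dec B (x l) F m ⊆ u l := by
    intro l
    by_cases hl : l ∈ I
    · obtain ⟨F, m, h⟩ := exists_Nb k r dec B (u l) (hu l hl).1 (x l) (hu l hl).2
      exact ⟨F, m, fun _ => h⟩
    · exact ⟨∅, 0, fun h => absurd h hl⟩
  choose F m hFm using h1
  refine ⟨Finset.univ.biUnion F, Finset.univ.sup m, fun y hy => hsub fun l hl => ?_⟩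
  refine hFm l hl (Nb_anti k r dec B (x l) ?_ ?_ (hy l))
  · exact Finset.subset_biUnion_of_mem F (Finset.mem_univ l)
  · exact Finset.le_sup (Finset.mem_univ l)

end Basic

section Fibre

variable (k : ι → ι → ℕ) (r : ι → ℕ → Bool) (dec : ℕ → Tab) (B : Set (ℕ → Bool))

lemma continuous_fibre_chi (ξ δ : ι) (h : ξ ≠ δ) :
    Continuous fun z : ℕ → Bool => chi k dec B ξ ⟨δ, z⟩ := by
  unfold chi
  simp only [h, if_false]
  have h2 : Continuous fun z : ℕ → Bool => res (dec (k ξ δ)).1 z :=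
    continuous_pi fun m => continuous_apply _
  exact (continuous_of_discreteTopology (f := (dec (k ξ δ)).2)).comp h2

lemma isOpen_fibre_Nb (x : Pt ι) (F : Finset ι) (m : ℕ) (δ : ι) (h : δ ∉ F) :
    IsOpen {z : ℕ → Bool | (⟨δ, z⟩ : Pt ι) ∈ Nb k r dec B x F m} := by
  have e : {z : ℕ → Bool | (⟨δ, z⟩ : Pt ι) ∈ Nb k r dec B x F m} = (⋂ s ∈ Finset.range m,
      ({z | r δ s = r x.δ s} ∩ {z | z s = x.z s})) ∩
      ⋂ ξ ∈ F, {z | chi k dec B ξ ⟨δ, z⟩ = chi k dec B ξ x} := by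
    ext y
    simp only [Nb, mem_ofPred_eq, mem_inter_iff, mem_iInter, Finset.mem_range]
  rw [e]
  refine IsOpen.inter ?_ ?_
  · refine isOpen_biInter_finset fun s _ => IsOpen.inter ?_ ?_
    · exact isOpen_const
    · have h2 : Continuous fun z : ℕ → Bool => z s := continuous_apply s
      exact (isOpen_discrete ({x.z s} : Set Bool)).preimage h2
  · refine isOpen_biInter_finset fun ξ hξ => ?_
    exact (isOpen_discrete ({chi k dec B ξ x} : Set Bool)).preimage
      (continuous_fibre_chi k dec B ξ δ fun h' => h (h' ▸ hξ))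

lemma hl_one (h : @HereditarilyLindelofSpace (Fin 1 → Pt ι)
    (@Pi.topologicalSpace _ _ fun _ => topo k r dec B)) :
    @HereditarilyLindelofSpace (Pt ι) (topo k r dec B) := by
  let _ : TopologicalSpace (Pt ι) := topo k r dec B
  refine HereditarilyLindelofSpace.of_forall_isOpen fun s _ => ?_
  have h1 : IsLindelof ((fun x : Fin 1 → Pt ι => x 0) ⁻¹' s) := HereditarilyLindelofSpace.isLindelof _
  have h2 := h1.image (continuous_apply (A := fun _ : Fin 1 => Pt ι) 0)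
  have h3 : (fun x : Fin 1 → Pt ι => x 0) '' ((fun x : Fin 1 → Pt ι => x 0) ⁻¹' s) = s := by
    refine image_preimage_eq _ fun x => ⟨fun _ => x, rfl⟩
  rwa [h3] at h2

lemma exists_fibre_open (hl : @HereditarilyLindelofSpace (Pt ι) (topo k r dec B))
    (G : Set (Pt ι)) (hG : IsOpen[topo k r dec B] G) :
    ∃ E : Set ι, E.Countable ∧ ∀ δ, δ ∉ E → IsOpen {z : ℕ → Bool | (⟨δ, z⟩ : Pt ι) ∈ G} := by
  let _ : TopologicalSpace (Pt ι) := topo k r dec B
  have h1 : ∀ x : G, ∃ (F : Finset ι) (m : ℕ), Nb k r dec B x.1 F m ⊆ G := fun x =>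
    exists_Nb k r dec B G hG x.1 x.2
  choose F m hFm using h1
  obtain ⟨T, hT, hTG⟩ := eq_open_union_countable (fun x : G => Nb k r dec B x.1 (F x) (m x))
    fun x => isOpen_Nb k r dec B x.1 (F x) (m x)
  have hG1 : ⋃ x : G, Nb k r dec B x.1 (F x) (m x) = G := by
    apply Subset.antisymm
    · exact iUnion_subset fun x => hFm x
    · intro y hy
      exact mem_iUnion.2 ⟨⟨y, hy⟩, mem_Nb k r dec B y _ _⟩
  rw [hG1] at hTG
  refine ⟨⋃ x ∈ T, (F x : Set ι), hT.biUnion fun x _ => (F x).countable_toSet, fun δ hδ => ?_⟩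
  have e : {z : ℕ → Bool | (⟨δ, z⟩ : Pt ι) ∈ G} =
      ⋃ x ∈ T, {z : ℕ → Bool | (⟨δ, z⟩ : Pt ι) ∈ Nb k r dec B x.1 (F x) (m x)} := by
    ext z
    have h3 : (⟨δ, z⟩ : Pt ι) ∈ G ↔ (⟨δ, z⟩ : Pt ι) ∈ ⋃ x ∈ T, Nb k r dec B x.1 (F x) (m x) := by
      rw [hTG]
    simp only [mem_iUnion, mem_ofPred_eq, exists_prop] at h3 ⊢
    exact h3
  rw [e]
  refine isOpen_biUnion fun x hx => isOpen_fibre_Nb k r dec B x.1 (F x) (m x) δ fun h => hδ ?_
  exact mem_biUnion hx h

lemma exists_fibre_continuous (hl : @HereditarilyLindelofSpace (Pt ι) (topo k r dec B))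
    (f : Pt ι → ℝ) (hf : @Continuous _ _ (topo k r dec B) _ f) :
    ∃ E : Set ι, E.Countable ∧ ∀ δ, δ ∉ E → Continuous fun z : ℕ → Bool => f ⟨δ, z⟩ := by
  let _ : TopologicalSpace (Pt ι) := topo k r dec B
  have hb := TopologicalSpace.isBasis_countableBasis ℝ
  have hbc := TopologicalSpace.countable_countableBasis ℝ
  have h1 : ∀ b ∈ TopologicalSpace.countableBasis ℝ, ∃ E : Set ι, E.Countable ∧
      ∀ δ, δ ∉ E → IsOpen {z : ℕ → Bool | (⟨δ, z⟩ : Pt ι) ∈ f ⁻¹' b} := fun b hbb =>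
    exists_fibre_open k r dec B hl (f ⁻¹' b) ((hb.isOpen hbb).preimage hf)
  choose! E hE1 hE2 using h1
  refine ⟨⋃ b ∈ TopologicalSpace.countableBasis ℝ, E b, hbc.biUnion hE1, fun δ hδ => ?_⟩
  rw [hb.continuous_iff]
  intro b hbb
  refine hE2 b hbb δ fun h => hδ ?_
  exact mem_biUnion hbb h

/-- every countable set of continuous functions is contained in a proper sequentially closed set -/
theorem exists_seqClosed [Uncountable ι]
    (hl : @HereditarilyLindelofSpace (Pt ι) (topo k r dec B)) (hB : ¬ MeasurableSet B) :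
    let _ : TopologicalSpace (Pt ι) := topo k r dec B
    ∀ D : Set {f : Pt ι → ℝ // Continuous f}, D.Countable →
      ∃ C : Set {f : Pt ι → ℝ // Continuous f}, D ⊆ C ∧ IsSeqClosed C ∧ C ≠ univ := by
  intro _ D hD
  have h1 : ∀ f : {f : Pt ι → ℝ // Continuous f}, ∃ E : Set ι, E.Countable ∧
      ∀ δ, δ ∉ E → Continuous fun z : ℕ → Bool => f.1 ⟨δ, z⟩ := fun f =>
    exists_fibre_continuous k r dec B hl f.1 f.2
  choose E hE1 hE2 using h1
  have h2 : (⋃ f ∈ D, E f).Countable := hD.biUnion fun f _ => hE1 f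
  obtain ⟨δ, hδ⟩ : ∃ δ, δ ∉ ⋃ f ∈ D, E f := by
    by_contra hcon
    push Not at hcon
    rw [eq_univ_of_forall hcon, countable_univ_iff] at h2
    exact not_countable (α := ι) h2
  refine ⟨{f | Measurable fun z : ℕ → Bool => f.1 ⟨δ, z⟩}, fun f hf => ?_, ?_, ?_⟩
  · refine (hE2 f δ fun h => hδ ?_).measurable
    exact mem_biUnion hf h
  · intro u g hu hlim
    refine measurable_of_tendsto_metrizable (f := fun n z => (u n).1 ⟨δ, z⟩) (fun n => hu n) ?_
    rw [tendsto_pi_nhds]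
    intro z
    have h3 : Tendsto (fun n => (u n).1) atTop (𝓝 g.1) :=
      (continuous_subtype_val.tendsto g).comp hlim
    exact (tendsto_pi_nhds.1 h3) ⟨δ, z⟩
  · intro hcon
    have h3 : Continuous fun x : Pt ι => if chi k dec B δ x = true then (1 : ℝ) else 0 :=
      (continuous_of_discreteTopology (f := fun b : Bool => if b = true then (1 : ℝ) else 0)).comp
        (continuous_chi k r dec B δ)
    have h4 : (⟨_, h3⟩ : {f : Pt ι → ℝ // Continuous f}) ∈
        {f : {f : Pt ι → ℝ // Continuous f} | Measurable fun z : ℕ → Bool => f.1 ⟨δ, z⟩} := by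
      rw [hcon]
      exact mem_univ _
    have h5 : Measurable fun z : ℕ → Bool =>
        if chi k dec B δ (⟨δ, z⟩ : Pt ι) = true then (1 : ℝ) else 0 := h4
    apply hB
    have h6 : B = (fun z : ℕ → Bool =>
        if chi k dec B δ (⟨δ, z⟩ : Pt ι) = true then (1 : ℝ) else 0) ⁻¹' {1} := by
      ext z
      simp [chi]
    rw [h6]
    exact h5 (measurableSet_singleton 1)

end Fibre

end Pool.Agent.Lib.MP_8c4e2c_gt.EN
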