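import Pool.Agent.Lib.MP_8c4e2c_gt.EN.Pat

/-!
# Strong colorings give pattern colorings
-/

set_option autoImplicit false

namespace Pool.Agent.Lib.MP_8c4e2c_gt.EN

open Set Filter Topology
open Pool.Agent.Lib.MP_8c4e2c_gt.BN

variable {ι : Type} [LinearOrder ι]

/-- finite tables with values in `ℕ` -/
abbrev TabN : Type := Σ K : ℕ, ((Fin K → Bool) → (Fin K → Bool) → ℕ)

theorem isPattern_of_strong (c : ι → ι → ℕ) (hc : BN.IsStrongColoring c) (r : ι → ℕ → Bool)
    (hr : Function.Injective r) : ∃ k : ι → ι → ℕ, IsPattern k := by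
  classical
  obtain ⟨dec, hdec⟩ := exists_surjective_nat TabN
  set k : ι → ι → ℕ := fun ξ δ =>
    if ξ < δ then (dec (c ξ δ)).2 (res _ (r ξ)) (res _ (r δ)) else 0 with hk
  refine ⟨k, fun n a J hJ hinj hpc κ => ?_⟩
  have hres : ∀ i, ∃ K : ℕ, ∀ p q, (∀ s < K, r (a i p) s = r (a i q) s) →
      r (a i p) = r (a i q) := fun i => exists_res fun p => r (a i p)
  choose K' hK' using hres
  obtain ⟨K, hK⟩ := pigeon hJ K'
  set data : ι → (Fin n → Fin K → Bool) × (Fin n → Fin n → ℕ) := fun i =>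
    ((fun p => res K (r (a i p))), fun p q => k (a i p) (a i q)) with hdata
  obtain ⟨D0, hD0⟩ := pigeon hK data
  set J3 : Set ι := {i | i ∈ {i | i ∈ J ∧ K' i = K} ∧ data i = D0} with hJ3
  obtain ⟨i0, hi0⟩ : ∃ i0, i0 ∈ J3 := by
    by_contra hcon
    push Not at hcon
    exact hD0 (by
      have : J3 = ∅ := eq_empty_of_forall_notMem hcon
      rw [this]
      exact countable_empty)
  have hsame : ∀ i ∈ J3, data i = data i0 := fun i hi => hi.2.trans hi0.2.symm
  have s1 : ∀ i ∈ J3, ∀ p, res K (r (a i p)) = res K (r (a i0 p)) := fun i hi p =>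
    congrFun (congrArg (fun d => d.1) (hsame i hi)) p
  have s2 : ∀ i ∈ J3, ∀ p q, k (a i p) (a i q) = k (a i0 p) (a i0 q) := fun i hi p q =>
    congrFun (congrFun (congrArg (fun d => d.2) (hsame i hi)) p) q
  have hu : ∀ p q, res K (r (a i0 p)) = res K (r (a i0 q)) → p = q := by
    intro p q h
    refine hinj i0 hi0.1.1 (hr (hK' i0 p q fun s hs => ?_))
    rw [hi0.1.2] at hs
    exact congrFun h ⟨s, hs⟩
  set h : (Fin K → Bool) → (Fin K → Bool) → ℕ := fun s t =>
    if hpq : ∃ pq : Fin n × Fin n, res K (r (a i0 pq.1)) = s ∧ res K (r (a i0 pq.2)) = t then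
      (if hpq.choose.1 = hpq.choose.2 then κ hpq.choose.1
        else k (a i0 hpq.choose.1) (a i0 hpq.choose.2))
    else 0 with hh
  have hval : ∀ p q, h (res K (r (a i0 p))) (res K (r (a i0 q))) =
      if p = q then κ p else k (a i0 p) (a i0 q) := by
    intro p q
    have hex : ∃ pq : Fin n × Fin n, res K (r (a i0 pq.1)) = res K (r (a i0 p)) ∧
        res K (r (a i0 pq.2)) = res K (r (a i0 q)) := ⟨(p, q), rfl, rfl⟩
    have e1 : hex.choose.1 = p := hu _ _ hex.choose_spec.1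
    have e2 : hex.choose.2 = q := hu _ _ hex.choose_spec.2
    simp only [hh]
    rw [dif_pos hex, e1, e2]
  obtain ⟨γ, hγ⟩ := hdec ⟨K, h⟩
  obtain ⟨d, hd, j, hj, hdj, hcol⟩ := hc n a J3 hD0 (fun ζ => (hpc ζ).mono fun i hi =>
    And.intro hi.1.1.1 hi.2) γ
  have hkv : ∀ p q, k (a d p) (a j q) = if p = q then κ p else k (a d p) (a d q) := by
    intro p q
    have e1 : k (a d p) (a j q) = h (res K (r (a d p))) (res K (r (a j q))) := by
      simp only [hk]
      rw [if_pos (hcol p q).1, (hcol p q).2, hγ]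
    rw [e1, s1 d hd p, s1 j hj q, hval p q, s2 d hd p q]
  refine ⟨d, hd.1.1, j, hj.1.1, hdj, fun p q => (hcol p q).1, fun p => ?_, fun p q hpq => ?_⟩
  · rw [hkv p p, if_pos rfl]
  · rw [hkv p q, if_neg hpq]

end Pool.Agent.Lib.MP_8c4e2c_gt.EN
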