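import Pool.Agent.Lib.MP_8c4e2c_gt.EN.Ent

/-!
# Coherent Suslin trees give strong colorings
-/

set_option autoImplicit false

namespace Pool.Agent.Lib.MP_8c4e2c_gt.EN

open Set Filter Topology
open Pool.Agent.Lib.MP_8c4e2c_gt.BN

variable {ι : Type} [LinearOrder ι]

/-- nodes of the tree of finite modifications of the functions `e δ` on the initial segments -/
def IsNode (e : ι → ι → ℕ) (x : ι × (ι → ℕ)) : Prop :=
  {α | α < x.1 ∧ x.2 α ≠ e x.1 α}.Finite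

/-- the tree order: `y` extends `x` -/
def Ext (x y : ι × (ι → ℕ)) : Prop :=
  x.1 ≤ y.1 ∧ ∀ α < x.1, x.2 α = y.2 α

/-- `e` is coherent and the tree of all finite modifications of the functions `e δ` has no
uncountable antichains -/
def IsCoherentSuslin (e : ι → ι → ℕ) : Prop :=
  (∀ β γ, β < γ → {α | α < β ∧ e β α ≠ e γ α}.Finite) ∧
    ∀ 𝒜 : Set (ι × (ι → ℕ)), (∀ x ∈ 𝒜, IsNode e x) →
      (∀ x ∈ 𝒜, ∀ y ∈ 𝒜, x ≠ y → ¬ Ext x y) → 𝒜.Countable

lemma exists_maximal_antichain (𝒟 : Set (ι × (ι → ℕ))) :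
    ∃ 𝒜 ⊆ 𝒟, (∀ x ∈ 𝒜, ∀ y ∈ 𝒜, x ≠ y → ¬ Ext x y) ∧
      ∀ v ∈ 𝒟, ∃ v' ∈ 𝒜, Ext v v' ∨ Ext v' v := by
  obtain ⟨𝒜, h𝒜⟩ := zorn_subset {𝒜 : Set (ι × (ι → ℕ)) | 𝒜 ⊆ 𝒟 ∧
      ∀ x ∈ 𝒜, ∀ y ∈ 𝒜, x ≠ y → ¬ Ext x y} (by
    intro c hc hchain
    refine ⟨⋃₀ c, ⟨sUnion_subset fun s hs => (hc hs).1, ?_⟩, fun s hs => subset_sUnion_of_mem hs⟩
    rintro x ⟨s, hs, hx⟩ y ⟨t, ht, hy⟩ hne
    rcases hchain.total hs ht with h | h
    · exact (hc ht).2 x (h hx) y hy hne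
    · exact (hc hs).2 x hx y (h hy) hne)
  refine ⟨𝒜, h𝒜.prop.1, h𝒜.prop.2, fun v hv => ?_⟩
  by_contra hcon
  push Not at hcon
  have hins : insert v 𝒜 ∈ {𝒜 : Set (ι × (ι → ℕ)) | 𝒜 ⊆ 𝒟 ∧
      ∀ x ∈ 𝒜, ∀ y ∈ 𝒜, x ≠ y → ¬ Ext x y} := by
    refine ⟨insert_subset hv h𝒜.prop.1, ?_⟩
    intro x hx y hy hne
    rcases hx with rfl | hx
    · rcases hy with rfl | hy
      · exact absurd rfl hne
      · exact (hcon y hy).1
    · rcases hy with rfl | hy
      · exact (hcon x hx).2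
      · exact h𝒜.prop.2 x hx y hy hne
  have hv' : v ∈ 𝒜 := h𝒜.le_of_ge hins (subset_insert _ _) (mem_insert _ _)
  exact (hcon v hv').1 ⟨le_rfl, fun _ _ => rfl⟩

theorem strong_of_suslin [WellFoundedLT ι] [Uncountable ι] (hι : ∀ i : ι, (Iic i).Countable)
    (e : ι → ι → ℕ) (he : IsCoherentSuslin e) : BN.IsStrongColoring fun α β => e β α := by
  classical
  obtain ⟨hcoh, hsus⟩ := he
  intro n a J hJ hpc k
  rcases Nat.eq_zero_or_pos n with rfl | hn
  · obtain ⟨d, hd, j, hj, hdj⟩ := exists_pair hJ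
    exact ⟨d, hd, j, hj, hdj, fun p => p.elim0⟩
  set p0 : Fin n := ⟨0, hn⟩ with hp0
  -- the finite sets of differences
  have hfin : ∀ i, {α | (∀ p, α < a i p) ∧ ∃ p, e (a i p) α ≠ e (a i p0) α}.Finite := by
    intro i
    have h1 : {α | (∀ p, α < a i p) ∧ ∃ p, e (a i p) α ≠ e (a i p0) α} ⊆
        ⋃ p, {α | (α < a i p ∧ α < a i p0) ∧ e (a i p) α ≠ e (a i p0) α} := by
      rintro α ⟨h2, p, hp⟩
      exact mem_iUnion.2 ⟨p, ⟨h2 p, h2 p0⟩, hp⟩
    refine (finite_iUnion fun p => ?_).subset h1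
    rcases lt_trichotomy (a i p) (a i p0) with h | h | h
    · exact (hcoh _ _ h).subset fun α hα => And.intro hα.1.1 hα.2
    · convert finite_empty (α := ι)
      ext α
      simp [h]
    · exact (hcoh _ _ h).subset fun α hα => And.intro hα.1.2 (Ne.symm hα.2)
  set G : ι → Finset ι := fun i => (hfin i).toFinset with hG
  have hGm : ∀ i α, α ∈ G i ↔ (∀ p, α < a i p) ∧ ∃ p, e (a i p) α ≠ e (a i p0) α := by
    intro i α
    simp only [hG, Set.Finite.mem_toFinset]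
    rfl
  obtain ⟨R, J1, N, hJ1J, hJ1, hR, -, hpcG⟩ := exists_root G J hJ
  -- the truncation levels
  set H : ι → Finset ι := fun i => (G i \ R) ∪ Finset.univ.image (a i) with hH
  have hHne : ∀ i, (H i).Nonempty := fun i =>
    ⟨a i p0, Finset.mem_union_right _ (Finset.mem_image_of_mem _ (Finset.mem_univ _))⟩
  set δ : ι → ι := fun i => (H i).min' (hHne i) with hδ
  have hδa : ∀ i p, δ i ≤ a i p := fun i p =>
    Finset.min'_le _ _ (Finset.mem_union_right _ (Finset.mem_image_of_mem _ (Finset.mem_univ _)))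
  have hδG : ∀ i α, α < δ i → α ∉ R → ∀ p, e (a i p) α = e (a i p0) α := by
    intro i α hα hαR p
    by_contra hne
    have h1 : α ∈ G i := (hGm i α).2 ⟨fun q => hα.trans_le (hδa i q), p, hne⟩
    have h2 : δ i ≤ α := Finset.min'_le _ _ (Finset.mem_union_left _ (Finset.mem_sdiff.2 ⟨h1, hαR⟩))
    exact absurd hα (not_lt.2 h2)
  have hpcδ : ∀ ζ, {i | i ∈ J1 ∧ δ i ≤ ζ}.Countable := by
    intro ζ
    have h1 : {i | i ∈ J1 ∧ δ i ≤ ζ} ⊆ (⋃ ζ' ∈ Iic ζ, {i | ζ' ∉ R ∧ i ∈ J1 ∧ ζ' ∈ G i}) ∪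
        {i | i ∈ J ∧ ∃ p, a i p ≤ ζ} := by
      rintro i ⟨hi, hiζ⟩
      have h2 := Finset.min'_mem (H i) (hHne i)
      rcases Finset.mem_union.1 h2 with h3 | h3
      · left
        rw [Finset.mem_sdiff] at h3
        exact mem_biUnion (show δ i ∈ Iic ζ from hiζ) (And.intro h3.2 (And.intro hi h3.1))
      · right
        obtain ⟨p, -, hp⟩ := Finset.mem_image.1 h3
        exact ⟨hJ1J hi, p, by rw [hp]; exact hiζ⟩
    refine (((hι ζ).biUnion fun ζ' _ => ?_).union (hpc ζ)).mono h1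
    by_cases h3 : ζ' ∈ R
    · convert countable_empty
      ext i
      simp [h3]
    · exact (hpcG ζ' h3).mono fun i hi => hi.2
  -- the nodes
  set x : ι → ι × (ι → ℕ) := fun i => (δ i, e (a i p0)) with hx
  have hnode : ∀ i γ, γ ≤ δ i → IsNode e (γ, e (a i p0)) := by
    intro i γ hγ
    rcases (hγ.trans (hδa i p0)).lt_or_eq with h | h
    · exact (hcoh _ _ h).subset fun α hα => And.intro hα.1 (Ne.symm hα.2)
    · have h1 : {α | α < γ ∧ e (a i p0) α ≠ e γ α} = ∅ := by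
        ext α
        simp [h]
      show {α | α < γ ∧ e (a i p0) α ≠ e γ α}.Finite
      rw [h1]
      exact finite_empty
  -- somewhere dense
  obtain ⟨u, hu, hdense⟩ : ∃ u, IsNode e u ∧ ∀ v, IsNode e v → Ext u v →
      ¬ {i | i ∈ J1 ∧ Ext v (x i)}.Countable := by
    by_contra hcon
    push Not at hcon
    set 𝒟 : Set (ι × (ι → ℕ)) := {v | IsNode e v ∧ {i | i ∈ J1 ∧ Ext v (x i)}.Countable} with h𝒟
    obtain ⟨𝒜, h𝒜𝒟, hanti, hmax⟩ := exists_maximal_antichain 𝒟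
    have h𝒜c : 𝒜.Countable := hsus 𝒜 (fun v hv => (h𝒜𝒟 hv).1) hanti
    obtain ⟨γ, hγ⟩ := exists_above hι ((fun v : ι × (ι → ℕ) => v.1) '' 𝒜) (h𝒜c.image _)
    apply hJ1
    have h1 : J1 ⊆ {i | i ∈ J1 ∧ δ i ≤ γ} ∪ ⋃ v ∈ 𝒜, {i | i ∈ J1 ∧ Ext v (x i)} := by
      intro i hi
      by_cases h2 : δ i ≤ γ
      · exact Or.inl (And.intro hi h2)
      · right
        have h3 : γ ≤ δ i := (not_le.1 h2).le
        obtain ⟨v, hv, hvu, hvc⟩ := hcon (γ, e (a i p0)) (hnode i γ h3)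
        obtain ⟨v', hv', hcomp⟩ := hmax v (And.intro hv hvc)
        refine mem_biUnion hv' (And.intro hi ?_)
        have h4 : v'.1 < γ := hγ _ ⟨v', hv', rfl⟩
        have h5 : γ ≤ v.1 := hvu.1
        have h6 : Ext v' v := by
          rcases hcomp with h7 | h7
          · exact absurd h7.1 (not_le.2 (h4.trans_le h5))
          · exact h7
        refine ⟨(h4.trans_le h3).le, fun α hα => ?_⟩
        rw [h6.2 α hα, ← hvu.2 α (hα.trans h4)]
    exact ((hpcδ γ).union (h𝒜c.biUnion fun v hv => (h𝒜𝒟 hv).2)).mono h1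
  -- the lower tuple
  obtain ⟨η, hη⟩ := exists_above hι ((R : Set ι) ∪ {u.1})
    (R.countable_toSet.union (countable_singleton _))
  obtain ⟨d, hd, hdη⟩ : ∃ d ∈ J1, ∀ p, η < a d p := by
    by_contra hcon
    push Not at hcon
    exact hJ1 ((hpc η).mono fun i hi => And.intro (hJ1J hi) (hcon i hi))
  obtain ⟨θ, hθ⟩ := exists_above hι (range (a d) ∪ {u.1})
    ((countable_range _).union (countable_singleton _))
  have hθa : ∀ p, a d p < θ := fun p => hθ _ (Or.inl ⟨p, rfl⟩)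
  have hθu : u.1 < θ := hθ _ (Or.inr rfl)
  have huη : u.1 < η := hη _ (Or.inr rfl)
  set s : ι → ℕ := fun α => if α < u.1 then u.2 α else if α ∈ range (a d) then k else e θ α with hs
  have hvnode : IsNode e (θ, s) := by
    have h1 : {α | α < θ ∧ s α ≠ e θ α} ⊆ ({α | α < u.1 ∧ u.2 α ≠ e u.1 α} ∪
        {α | α < u.1 ∧ e u.1 α ≠ e θ α}) ∪ range (a d) := by
      rintro α ⟨h2, h3⟩
      by_cases h4 : α < u.1
      · left
        simp only [hs, if_pos h4] at h3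
        by_cases h5 : u.2 α = e u.1 α
        · right
          exact And.intro h4 (by rwa [h5] at h3)
        · left
          exact And.intro h4 h5
      · right
        by_contra h5
        apply h3
        simp only [hs, if_neg h4, if_neg h5]
    exact ((hu.union (hcoh _ _ hθu)).union (finite_range _)).subset h1
  have hext : Ext u (θ, s) := by
    refine ⟨hθu.le, fun α hα => ?_⟩
    show u.2 α = s α
    simp only [hs, if_pos hα]
  have hbig := hdense (θ, s) hvnode hext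
  -- the upper tuple
  obtain ⟨j, hj, hjd, hja⟩ : ∃ j ∈ {i | i ∈ J1 ∧ Ext (θ, s) (x i)}, d < j ∧ ∀ q, θ < a j q := by
    by_contra hcon
    push Not at hcon
    apply hbig
    have h1 : {i | i ∈ J1 ∧ Ext (θ, s) (x i)} ⊆ Iic d ∪ {i | i ∈ J ∧ ∃ p, a i p ≤ θ} := by
      intro i hi
      by_cases h2 : d < i
      · exact Or.inr (And.intro (hJ1J hi.1) (hcon i hi h2))
      · exact Or.inl (not_lt.1 h2)
    exact ((hι d).union (hpc θ)).mono h1
  refine ⟨d, hJ1J hd, j, hJ1J hj.1, hjd, fun p q => ⟨(hθa p).trans (hja q), ?_⟩⟩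
  have h1 : a d p < δ j := (hθa p).trans_le hj.2.1
  have h2 : a d p ∉ R := fun h => absurd (hη _ (Or.inl h)) (not_lt.2 (hdη p).le)
  show e (a j q) (a d p) = k
  rw [hδG j _ h1 h2 q]
  have h3 : s (a d p) = e (a j p0) (a d p) := hj.2.2 _ (hθa p)
  rw [← h3]
  have h4 : ¬ a d p < u.1 := not_lt.2 (huη.trans (hdη p)).le
  simp only [hs, if_neg h4]
  rw [if_pos ⟨p, rfl⟩]

end Pool.Agent.Lib.MP_8c4e2c_gt.EN
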